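import Pool.Agent.Work.MP_7fd98a_co.Split.Defs

namespace Pool.Agent.Work.MP_7fd98a_co.Split

variable {q c : ℤ} {A W : ℤ → Prop}

/-- Case IIa: the low end is the block `[0, c - 1]` whose last element is a single; `q` is a
single. -/
structure CA (q : ℤ) (A W : ℤ → Prop) (c : ℤ) : Prop where
  g : Gr q A W
  four : Four W
  c2 : 2 ≤ c
  blk : ∀ t, 0 ≤ t → t < c - 1 → A t ∧ ¬ W t
  w1 : W (c - 1)
  wq : W q

structure CA' (q : ℤ) (A W : ℤ → Prop) (c : ℤ) : Prop where
  base : CA q A W c
  wc : W (q - c)
  all : ∀ t, 0 ≤ t → t < c → A t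
  top : ∀ t, 1 ≤ t → t < c → ¬ A (q - t)
  gap : ∀ t, c ≤ t → t < 2 * c → ¬ A t
  gap' : ∀ t, c < t → t ≤ 2 * c → ¬ A (q - t)
  big : 4 * c < q
  two : A (2 * c)

theorem CA.full (H : CA q A W c) : CA' q A W c := by
  have G := H.g
  have c2 := H.c2
  have Aq := G.sub _ H.wq
  have Ab := G.sub _ H.w1
  have all : ∀ t, 0 ≤ t → t < c → A t := by
    intro t h1 h2
    by_cases h : t = c - 1
    · rwa [h]
    · exact (H.blk t h1 (by omega)).1
  have A0 := all 0 (by omega) (by omega)
  have hbq : c - 1 ≤ q := G.hi _ Ab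
  -- q is large
  have hcq : c + 1 < q := by
    by_contra hcon
    obtain ⟨w, h1, h2, h3, h4⟩ := H.four (c - 1) q c
    have h5 := G.lo _ (G.sub _ h1)
    have h6 := G.hi _ (G.sub _ h1)
    by_cases h7 : w < c - 1
    · exact (H.blk w h5 h7).2 h1
    · omega
  have top : ∀ t, 1 ≤ t → t < c → ¬ A (q - t) := by
    intro t h1 h2 h3
    exact G.bad (q - t) q (c - 1 - t) (c - 1) h3 Aq (Or.inr H.wq) (all _ (by omega) (by omega)) Ab
      (Or.inr H.w1) (by omega) (by omega) (by omega)
  have nc : ¬ A c := by
    intro h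
    exact G.bad (c - 1) c (c - 2) (c - 1) Ab h (Or.inl H.w1) (all _ (by omega) (by omega)) Ab
      (Or.inr H.w1) (by omega) (by omega) (by omega)
  have wc : W (q - c) := by
    obtain ⟨u, v, hu, hv, e, h⟩ := G.cov (q - c) (by omega) (by omega)
    have u0 := G.lo _ hu
    have vq := G.hi _ hv
    by_cases h0 : u = 0
    · rcases h with h | h
      · exact absurd (h0 ▸ h) (H.blk 0 (by omega) (by omega)).2
      · rwa [show q - c = v by omega]
    · by_cases h1 : u = c
      · exact absurd (h1 ▸ hu) nc
      · exfalso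
        exact top (q - v) (by omega) (by omega) (by rwa [show q - (q - v) = v by omega])
  have Ac := G.sub _ wc
  have hqc : c ≤ q - c := by
    by_contra hcon
    obtain ⟨w, h1, h2, h3, h4⟩ := H.four (c - 1) q q
    have h5 := G.lo _ (G.sub _ h1)
    have h6 := G.hi _ (G.sub _ h1)
    by_cases h7 : w < c - 1
    · exact (H.blk w h5 h7).2 h1
    · by_cases h8 : w = q - c
      · omega
      · exact top (q - w) (by omega) (by omega) (by
          rw [show q - (q - w) = w by omega]; exact G.sub _ h1)
  have gap : ∀ t, c ≤ t → t < 2 * c → ¬ A t := by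
    intro t h1 h2 h3
    exact G.bad (t - c) (q - c) t q (all _ (by omega) (by omega)) Ac (Or.inr wc) h3 Aq
      (Or.inr H.wq) (by omega) (by omega) (by omega)
  have h3c : 3 * c ≤ q := by
    by_contra h
    exact gap (q - c) (by omega) (by omega) Ac
  have h3c' : 3 * c ≠ q := by
    intro h
    obtain ⟨w, w1, w2, w3, w4⟩ := H.four (c - 1) q (q - c)
    have Aw := G.sub _ w1
    have h5 := G.lo _ Aw
    have h6 := G.hi _ Aw
    by_cases h7 : w < c - 1
    · exact (H.blk w h5 h7).2 w1
    · by_cases h8 : w < 2 * c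
      · exact gap w (by omega) (by omega) Aw
      · exact top (q - w) (by omega) (by omega) (by rwa [show q - (q - w) = w by omega])
  have gap1 : ∀ t, c < t → t < 2 * c → ¬ A (q - t) := by
    intro t h1 h2 h3
    exact G.bad (c - 1 - (t - c)) (c - 1) (q - t) (q - c) (all _ (by omega) (by omega)) Ab
      (Or.inr H.w1) h3 Ac (Or.inr wc) (by omega) (by omega) (by omega)
  have q2 : ¬ A (q - 2 * c) := by
    intro h
    exact G.bad (q - 2 * c) (q - c) (q - c) q h Ac (Or.inr wc) Ac Aq (Or.inr H.wq) (by omega)
      (by omega) (by omega)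
  have gap' : ∀ t, c < t → t ≤ 2 * c → ¬ A (q - t) := by
    intro t h1 h2 h3
    rcases lt_or_eq_of_le h2 with h | h
    · exact gap1 t h1 h h3
    · exact q2 (by rwa [← h])
  have two : A (2 * c) := by
    obtain ⟨u, v, hu, hv, e, h⟩ := G.cov (q - 2 * c) (by omega) (by omega)
    have u0 := G.lo _ hu
    have vq := G.hi _ hv
    rcases eq_or_lt_of_le u0 with h' | h'
    · exfalso; exact q2 (by rwa [show q - 2 * c = v by omega])
    · by_cases h3 : u < c
      · exfalso
        exact gap' (2 * c - u) (by omega) (by omega) (by rwa [show q - (2 * c - u) = v by omega])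
      · by_cases h4 : u < 2 * c
        · exact absurd hu (gap u (by omega) h4)
        · rwa [show 2 * c = u by omega]
  refine ⟨H, wc, all, top, gap, gap', ?_, two⟩
  by_contra hcon
  by_cases h4 : q = 4 * c
  · exact G.bad (2 * c) (q - c) (q - c) q two Ac (Or.inr wc) Ac Aq (Or.inr H.wq) (by omega)
      (by omega) (by omega)
  · exact G.bad (c - 1 - (q - 3 * c)) (c - 1) (2 * c) (q - c) (all _ (by omega) (by omega)) Ab
      (Or.inr H.w1) two Ac (Or.inr wc) (by omega) (by omega) (by omega)

theorem CA'.two_w (H : CA' q A W c) (hN : W (2 * c)) : False := by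
  have G := H.base.g
  have c2 := H.base.c2
  have Aq := G.sub _ H.base.wq
  have Ac := G.sub _ H.wc
  have Ab := G.sub _ H.base.w1
  have A2 := H.two
  have big := H.big
  obtain ⟨u, v, hu, hv, e, h⟩ := G.cov (q - 2 * c - 1) (by omega) (by omega)
  have u0 := G.lo _ hu
  have vq := G.hi _ hv
  by_cases h0 : u = 0
  · exact G.bad (c - 1) (2 * c) v (q - c) Ab A2 (Or.inr hN) hv Ac (Or.inr H.wc) (by omega)
      (by omega) (by omega)
  · by_cases h1 : u < c
    · exact H.gap' (q - v) (by omega) (by omega) (by rwa [show q - (q - v) = v by omega])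
    · by_cases h2 : u < 2 * c
      · exact H.gap u (by omega) h2 hu
      · by_cases h3 : u = 2 * c
        · exact H.top 1 (by omega) (by omega) (by rwa [show q - 1 = v by omega])
        · exact G.bad (c - 2) (c - 1) (2 * c) u (H.all _ (by omega) (by omega)) Ab
            (Or.inr H.base.w1) A2 hu (Or.inl hN) (by omega) (by omega) (by omega)

theorem CA'.low (H : CA' q A W c) (hN : ¬ W (2 * c)) (x : ℤ) (hx : W x) (x0 : x ≠ c - 1)
    (xq : x ≠ q) (xc : x ≠ q - c) (hx2 : 2 * x ≤ q)
    (hm : ∀ w, W w → w ≠ c - 1 → w ≠ q → w ≠ q - c → x ≤ w ∧ w ≤ q - x) : False := by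
  have G := H.base.g
  have c2 := H.base.c2
  have Aq := G.sub _ H.base.wq
  have Ac := G.sub _ H.wc
  have Ab := G.sub _ H.base.w1
  have A2 := H.two
  have big := H.big
  have Ax := G.sub _ hx
  have x0' := G.lo _ Ax
  have hx1 : 2 * c < x := by
    by_contra hcon
    by_cases h : x = 2 * c
    · exact hN (by rwa [← h])
    · by_cases h1 : x < c - 1
      · exact (H.base.blk x x0' h1).2 hx
      · exact H.gap x (by omega) (by omega) Ax
  obtain ⟨u, v, hu, hv, e, h⟩ := G.cov (q - x + 1) (by omega) (by omega)
  have u0 := G.lo _ hu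
  have vq := G.hi _ hv
  have k1 : u = c - 1 → False := by
    intro h
    exact G.bad (2 * c) x v (q - c) A2 Ax (Or.inr hx) hv Ac (Or.inr H.wc) (by omega)
      (by omega) (by omega)
  have k2 : v = q → False := by
    intro h
    exact G.bad (c - 2) (c - 1) u x (H.all _ (by omega) (by omega)) Ab (Or.inr H.base.w1) hu Ax
      (Or.inr hx) (by omega) (by omega) (by omega)
  have k3 : v = q - c → False := by
    intro h
    exact G.bad (c - 1) (2 * c) u x Ab A2 (Or.inl H.base.w1) hu Ax (Or.inr hx) (by omega)
      (by omega) (by omega)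
  rcases h with h | h
  · by_cases h0 : u = c - 1
    · exact k1 h0
    · by_cases h1 : u = q
      · omega
      · by_cases h2 : u = q - c
        · omega
        · have := hm u h h0 h1 h2; omega
  · by_cases h0 : v = c - 1
    · omega
    · by_cases h1 : v = q
      · exact k2 h1
      · by_cases h2 : v = q - c
        · exact k3 h2
        · have := hm v h h0 h1 h2; omega

theorem CA'.high (H : CA' q A W c) (x : ℤ) (hx : W x) (x0 : x ≠ c - 1)
    (xq : x ≠ q) (xc : x ≠ q - c) (hx2 : q < 2 * x)
    (hm : ∀ w, W w → w ≠ c - 1 → w ≠ q → w ≠ q - c → q - x ≤ w ∧ w ≤ x) : False := by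
  have G := H.base.g
  have c2 := H.base.c2
  have Aq := G.sub _ H.base.wq
  have Ac := G.sub _ H.wc
  have Ab := G.sub _ H.base.w1
  have A0 := H.all 0 (by omega) (by omega)
  have A2 := H.two
  have big := H.big
  have Ax := G.sub _ hx
  have x0' := G.hi _ Ax
  have topv : ∀ v, A v → q - c ≤ v → v = q - c ∨ v = q := by
    intro v hv h1
    have := G.hi _ hv
    by_contra hcon
    exact H.top (q - v) (by omega) (by omega) (by rwa [show q - (q - v) = v by omega])
  have hx1 : x < q - 2 * c := by
    by_contra hcon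
    by_cases h1 : q - c ≤ x
    · have := topv x Ax h1; omega
    · exact H.gap' (q - x) (by omega) (by omega) (by rwa [show q - (q - x) = x by omega])
  obtain ⟨u, v, hu, hv, e, h⟩ := G.cov (x - c) (by omega) (by omega)
  have u0 := G.lo _ hu
  have vq := G.hi _ hv
  have k1 : u = 0 → False := by
    intro h
    have : v = x - c := by omega
    subst this
    exact G.bad (x - c) x (q - c) q hv Ax (Or.inr hx) Ac Aq (Or.inr H.base.wq) (by omega)
      (by omega) (by omega)
  have k2 : v = q → False := by
    intro h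
    exact G.bad u (q - c) (2 * c) x hu Ac (Or.inr H.wc) H.two Ax (Or.inr hx) (by omega)
      (by omega) (by omega)
  have k3 : v = q - c → False := by
    intro h
    exact G.bad u q 0 x hu Aq (Or.inr H.base.wq) A0 Ax (Or.inr hx) (by omega)
      (by omega) (by omega)
  rcases h with h | h
  · by_cases h0 : u = c - 1
    · exact G.bad v x (c - 2) (c - 1) hv Ax (Or.inr hx) (H.all _ (by omega) (by omega)) Ab
        (Or.inr H.base.w1) (by omega) (by omega) (by omega)
    · by_cases h1 : u = q
      · omega
      · by_cases h2 : u = q - c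
        · omega
        · have := hm u h h0 h1 h2
          rcases topv v hv (by omega) with h | h
          · exact k3 h
          · exact k2 h
  · by_cases h0 : v = c - 1
    · omega
    · by_cases h1 : v = q
      · exact k2 h1
      · by_cases h2 : v = q - c
        · exact k3 h2
        · have := hm v h h0 h1 h2
          by_cases h3 : v = x
          · exact H.gap u (by omega) (by omega) hu
          · by_cases h4 : u = 0
            · exact k1 h4
            · exact G.bad (c - 1 - (x - v)) (c - 1) v x (H.all _ (by omega) (by omega)) Ab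
                (Or.inr H.base.w1) hv Ax (Or.inr hx) (by omega) (by omega) (by omega)

end Pool.Agent.Work.MP_7fd98a_co.Split
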