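import Pool.Agent.Work.MP_7fd98a_co.Split.C2c

namespace Pool.Agent.Work.MP_7fd98a_co.Split

variable {q b x : ℤ} {A W : ℤ → Prop}

/-- The fourth single leads to a contradiction. -/
theorem CB3.false (H : CB3 q A W b x) : False := by
  have G := H.base.base.g
  have b1 := H.base.base.b1
  have Aq := G.sub _ H.base.base.wq
  have Ab := G.sub _ H.base.base.wb
  have blk := H.base.base.blk
  have A0 := (blk 0 (by omega) (by omega)).1
  have hx := H.hx
  have Ax := G.sub _ hx
  have A2 := H.base.two
  have xb := H.xb
  have xq := H.xq
  have hr := md_range b1 x
  have rr := H.r
  have nohi := H.nohi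
  have top := H.top
  have pat := H.pat
  obtain ⟨y, hy⟩ : ∃ y, y = x - md b x + 2 * b := ⟨_, rfl⟩
  rw [← hy] at pat
  have y4 : 4 * b ≤ y := by
    -- x - md x ≥ 2 b
    have h1 := md_sub b1 x (2 * b)
    have h2 : md b (2 * b) = 0 := by
      have := md_eq b1 (2 * b) 0 1 (by ring)
      rw [this, md_small 0 (by omega) (by omega)]
    rw [h2] at h1
    by_contra hcon
    have h3 := md_small (b := b) (x - 2 * b) (by omega) (by omega)
    omega
  have Ax2 : A (x - 2 * b) := by
    refine (pat (x - 2 * b) (by omega) (by omega)).2 ?_
    have h1 := md_sub b1 x (2 * b)
    have h2 : md b (2 * b) = 0 := by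
      have := md_eq b1 (2 * b) 0 1 (by ring)
      rw [this, md_small 0 (by omega) (by omega)]
    rw [h2] at h1
    omega
  -- residues in the last two blocks
  have mdt : ∀ t, y - 2 * b ≤ t → t < y → md b t = t - (y - 2 * b) := by
    intro t h1 h2
    by_cases h3 : t ≤ x
    · have hs := md_sub b1 x (x - t)
      rw [md_small (x - t) (by omega) (by omega), show x - (x - t) = t by omega] at hs
      omega
    · have hs := md_sub b1 t (t - x)
      rw [md_small (t - x) (by omega) (by omega), show t - (t - x) = x by omega] at hs
      have := md_range b1 t
      omega
  have full : ∀ t, y - 2 * b ≤ t → t < y - b → A t := by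
    intro t h1 h2
    exact (pat t (by omega) (by omega)).2 (by rw [mdt t h1 (by omega)]; omega)
  have empt : ∀ t, y - b ≤ t → t < y → ¬ A t := by
    intro t h1 h2 h3
    have := (pat t (by omega) (by omega)).1 h3
    rw [mdt t (by omega) (by omega)] at this
    omega
  -- all other singles have depth at least y
  have hm : ∀ w, W w → w ≠ q → w ≠ q - b → w ≠ x → y ≤ w ∧ w ≤ q - y := by
    intro w h1 h2 h3 h4
    have h5 := H.hm w h1 h2 h3 h4
    have Aw := G.sub _ h1
    constructor
    · by_contra hcon
      exact empt w (by omega) (by omega) Aw
    · by_contra hcon
      exact G.bad 0 w (q - w - b) (q - b) A0 Aw (Or.inr h1)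
        (full (q - w - b) (by omega) (by omega)) Ab (Or.inr H.base.base.wb) (by omega)
        (by omega) (by omega)
  have yq : 2 * y ≤ q := by
    obtain ⟨w, w1, w2, w3, w4⟩ := H.base.base.four q (q - b) x
    have := hm w w1 w2 w3 w4
    omega
  have ny : ¬ A y := by
    intro hA
    rcases rr with r0 | r0
    · exact G.bad x y (x - 2 * b) x Ax hA (Or.inl hx) Ax2 Ax (Or.inr hx) (by omega)
        (by omega) (by omega)
    · by_cases hb1 : b = 1
      · exact G.bad x y (x - 2 * b) x Ax hA (Or.inl hx) Ax2 Ax (Or.inr hx) (by omega)
          (by omega) (by omega)
      · obtain ⟨u, v, hu, hv, e, h⟩ := G.cov (q - y - b + 1) (by omega) (by omega)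
        have u0 := G.lo _ hu
        have vq := G.hi _ hv
        have k1 : v = q → False := by
          intro h
          exact G.bad x u (x - 2 * b) x Ax hu (Or.inl hx) Ax2 Ax (Or.inr hx) (by omega)
            (by omega) (by omega)
        rcases h with h | h
        · by_cases h0 : u = q
          · omega
          · by_cases h1 : u = q - b
            · omega
            · by_cases h2 : u = x
              · exact nohi (2 * b) (by omega) (by omega) (by omega) (by
                  rwa [show q - 2 * b = v by omega])
              · have := hm u h h0 h1 h2
                by_cases h3 : v = q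
                · exact k1 h3
                · exact top (q - v) (by omega) (by omega) (by
                    rwa [show q - (q - v) = v by omega])
        · by_cases h0 : v = q
          · exact k1 h0
          · by_cases h1 : v = q - b
            · exact empt u (by omega) (by omega) hu
            · by_cases h2 : v = x
              · omega
              · have := hm v h h0 h1 h2
                by_cases h3 : v = q - y
                · exact G.bad 0 v y q A0 hv (Or.inr h) hA Aq (Or.inr H.base.base.wq) (by omega)
                    (by omega) (by omega)
                · exact G.bad (b - (q - y - v)) v y (q - b)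
                    (blk _ (by omega) (by omega)).1 hv (Or.inr h) hA Ab
                    (Or.inr H.base.base.wb) (by omega) (by omega) (by omega)
  have Wz : W (q - y) := by
    obtain ⟨u, v, hu, hv, e, h⟩ := G.cov (q - y) (by omega) (by omega)
    have u0 := G.lo _ hu
    have vq := G.hi _ hv
    rcases h with h | h
    · by_cases h0 : u = q
      · omega
      · by_cases h1 : u = q - b
        · omega
        · by_cases h2 : u = x
          · exact absurd (by rwa [show v = q - (y - x) by omega] at hv)
              (nohi (y - x) (by omega) (by omega) (by omega))
          · have := hm u h h0 h1 h2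
            exact absurd (by rwa [show u = y by omega] at hu) ny
    · by_cases h0 : v = q
      · exact absurd (by rwa [show u = y by omega] at hu) ny
      · by_cases h1 : v = q - b
        · exact absurd hu (empt u (by omega) (by omega))
        · by_cases h2 : v = x
          · omega
          · have := hm v h h0 h1 h2
            rwa [show q - y = v by omega]
  have Az := G.sub _ Wz
  obtain ⟨u, v, hu, hv, e, h⟩ := G.cov (q - y - b) (by omega) (by omega)
  have u0 := G.lo _ hu
  have vq := G.hi _ hv
  have k1 : v = q → False := by
    intro h
    exact G.bad u (q - b) (2 * b) (q - y) hu Ab (Or.inr H.base.base.wb) A2 Az (Or.inr Wz)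
      (by omega) (by omega) (by omega)
  have k2 : v = q - b → False := by
    intro h
    exact ny (by rwa [show y = u by omega])
  rcases h with h | h
  · by_cases h0 : u = q
    · omega
    · by_cases h1 : u = q - b
      · omega
      · by_cases h2 : u = x
        · exact nohi (q - v) (by omega) (by omega) (by omega) (by
            rwa [show q - (q - v) = v by omega])
        · have := hm u h h0 h1 h2
          by_cases h3 : v = q
          · exact k1 h3
          · by_cases h4 : v = q - b
            · exact k2 h4
            · exact top (q - v) (by omega) (by omega) (by
                rwa [show q - (q - v) = v by omega])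
  · by_cases h0 : v = q
    · exact k1 h0
    · by_cases h1 : v = q - b
      · exact k2 h1
      · by_cases h2 : v = x
        · omega
        · have := hm v h h0 h1 h2
          by_cases h3 : v = q - y
          · exact H.base.base.nb (by rwa [show b = u by omega])
          · by_cases h4 : u = 0
            · exact G.bad v (q - y) (q - b) q hv Az (Or.inr Wz) Ab Aq (Or.inr H.base.base.wq)
                (by omega) (by omega) (by omega)
            · exact G.bad 0 v (q - y - v) (q - y) A0 hv (Or.inr h)
                (blk _ (by omega) (by omega)).1 Az (Or.inr Wz) (by omega) (by omega) (by omega)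

end Pool.Agent.Work.MP_7fd98a_co.Split
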