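import Pool.Agent.Work.MP_7fd98a_co.Split.C1
import Pool.Agent.Work.MP_7fd98a_co.Split.C2a
import Pool.Agent.Work.MP_7fd98a_co.Split.C2d

namespace Pool.Agent.Work.MP_7fd98a_co.Split

variable {q b c x : ℤ} {A W : ℤ → Prop}

theorem exmin (P : ℤ → Prop) (hP : ∃ w, P w) (hlo : ∀ w, P w → 0 ≤ w ∧ w ≤ q) :
    ∃ x, P x ∧ ((2 * x ≤ q ∧ ∀ w, P w → x ≤ w ∧ w ≤ q - x) ∨
      (q < 2 * x ∧ ∀ w, P w → q - x ≤ w ∧ w ≤ x)) := by
  classical
  have hex : ∃ n : ℕ, ∃ w, P w ∧ ((n : ℤ) = w ∨ (n : ℤ) = q - w) := by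
    obtain ⟨w, hw⟩ := hP
    exact ⟨w.toNat, w, hw, Or.inl (by have := hlo w hw; omega)⟩
  obtain ⟨x, hx, hx'⟩ := Nat.find_spec hex
  have hmin : ∀ w, P w → ((Nat.find hex : ℕ) : ℤ) ≤ w ∧ ((Nat.find hex : ℕ) : ℤ) ≤ q - w := by
    intro w hw
    have h1 := hlo w hw
    have h2 := Nat.find_min' hex (m := w.toNat) ⟨w, hw, Or.inl (by omega)⟩
    have h3 := Nat.find_min' hex (m := (q - w).toNat) ⟨w, hw, Or.inr (by omega)⟩
    omega
  refine ⟨x, hx, ?_⟩
  have hxm := hmin x hx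
  by_cases h : 2 * x ≤ q
  · left
    refine ⟨h, fun w hw => ?_⟩
    have := hmin w hw
    omega
  · right
    refine ⟨by omega, fun w hw => ?_⟩
    have := hmin w hw
    omega

theorem CI.false (H : CI q A W c) (n : ℤ) (hn : A n) (hn' : ¬ W n) : False := by
  have F := H.full
  by_cases h2 : W (2 * c)
  · by_cases h1 : c = 1
    · subst h1
      exact F.two_one (by simpa using h2) n hn hn'
    · have := H.c1
      exact F.two_ge (by omega) h2
  · obtain ⟨x, hx, hx'⟩ := exmin (q := q) (fun w => W w ∧ w ≠ 0 ∧ w ≠ q ∧ w ≠ q - c)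
      (by
        obtain ⟨w, h1, h2, h3, h4⟩ := H.four 0 q (q - c)
        exact ⟨w, h1, h2, h3, h4⟩)
      (by
        intro w hw
        exact ⟨H.g.lo _ (H.g.sub _ hw.1), H.g.hi _ (H.g.sub _ hw.1)⟩)
    rcases hx' with ⟨h3, h4⟩ | ⟨h3, h4⟩
    · exact F.low h2 x hx.1 hx.2.1 hx.2.2.1 hx.2.2.2 h3
        (fun w a b c d => h4 w ⟨a, b, c, d⟩)
    · exact F.high h2 x hx.1 hx.2.1 hx.2.2.1 hx.2.2.2 h3
        (fun w a b c d => h4 w ⟨a, b, c, d⟩)

theorem caseI (G : Gr q A W) (F : Four W) (w0 : W 0) (wq : W q) (n : ℤ) (hn : A n)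
    (hn' : ¬ W n) : False := by
  obtain ⟨x, hx, hx'⟩ := exmin (q := q) (fun w => W w ∧ w ≠ 0 ∧ w ≠ q)
      (by
        obtain ⟨w, h1, h2, h3, h4⟩ := F 0 q q
        exact ⟨w, h1, h2, h3⟩)
      (by
        intro w hw
        exact ⟨G.lo _ (G.sub _ hw.1), G.hi _ (G.sub _ hw.1)⟩)
  have hx0 := G.lo _ (G.sub _ hx.1)
  have hxq := G.hi _ (G.sub _ hx.1)
  have hne1 := hx.2.1
  have hne2 := hx.2.2
  rcases hx' with ⟨h3, h4⟩ | ⟨h3, h4⟩
  · have H : CI q (fun z => A (q - z)) (fun z => W (q - z)) x := by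
      refine ⟨G.refl, F.refl, by omega, ?_, ?_, ?_, ?_⟩
      · simpa using wq
      · simpa using w0
      · show W (q - (q - x))
        rw [show q - (q - x) = x by omega]
        exact hx.1
      · intro w a b c
        have := h4 (q - w) ⟨a, by omega, by omega⟩
        omega
    exact H.false (q - n) (by
      show A (q - (q - n))
      rwa [show q - (q - n) = n by omega]) (by
      show ¬ W (q - (q - n))
      rwa [show q - (q - n) = n by omega])
  · have H : CI q A W (q - x) := by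
      refine ⟨G, F, by omega, w0, wq, ?_, ?_⟩
      · rw [show q - (q - x) = x by omega]
        exact hx.1
      · intro w a b c
        have := h4 w ⟨a, b, c⟩
        omega
    exact H.false n hn hn'

theorem CA.false (H : CA q A W c) : False := by
  have F := H.full
  by_cases h2 : W (2 * c)
  · exact F.two_w h2
  · obtain ⟨x, hx, hx'⟩ := exmin (q := q) (fun w => W w ∧ w ≠ c - 1 ∧ w ≠ q ∧ w ≠ q - c)
      (by
        obtain ⟨w, h1, h2, h3, h4⟩ := H.four (c - 1) q (q - c)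
        exact ⟨w, h1, h2, h3, h4⟩)
      (by
        intro w hw
        exact ⟨H.g.lo _ (H.g.sub _ hw.1), H.g.hi _ (H.g.sub _ hw.1)⟩)
    rcases hx' with ⟨h3, h4⟩ | ⟨h3, h4⟩
    · exact F.low h2 x hx.1 hx.2.1 hx.2.2.1 hx.2.2.2 h3
        (fun w a b c d => h4 w ⟨a, b, c, d⟩)
    · exact F.high x hx.1 hx.2.1 hx.2.2.1 hx.2.2.2 h3
        (fun w a b c d => h4 w ⟨a, b, c, d⟩)

theorem CB.false (H : CB q A W b) : False := by
  have F := H.full
  obtain ⟨x, hx, hx'⟩ := exmin (q := q) (fun w => W w ∧ w ≠ q ∧ w ≠ q - b)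
      (by
        obtain ⟨w, h1, h2, h3, h4⟩ := H.four q (q - b) q
        exact ⟨w, h1, h2, h3⟩)
      (by
        intro w hw
        exact ⟨H.g.lo _ (H.g.sub _ hw.1), H.g.hi _ (H.g.sub _ hw.1)⟩)
  rcases hx' with ⟨h3, h4⟩ | ⟨h3, h4⟩
  · exact (F.low x hx.1 hx.2.1 hx.2.2 h3 (fun w a b c => h4 w ⟨a, b, c⟩)).false
  · exact F.high x hx.1 hx.2.1 hx.2.2 h3 (fun w a b c => h4 w ⟨a, b, c⟩)

theorem caseII (G : Gr q A W) (F : Four W) (A0 : A 0) (n0 : ¬ W 0) (wq : W q) : False := by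
  classical
  have Aq := G.sub _ wq
  have q0 := G.hi _ A0
  have hex : ∃ n : ℕ, ¬ (A n ∧ ¬ W n) := ⟨q.toNat, by
    rw [show ((q.toNat : ℕ) : ℤ) = q by omega]
    exact fun h => h.2 wq⟩
  obtain ⟨b, hb⟩ : ∃ b : ℤ, b = (Nat.find hex : ℕ) := ⟨_, rfl⟩
  have hspec : ¬ (A b ∧ ¬ W b) := by rw [hb]; exact Nat.find_spec hex
  have blk : ∀ t, 0 ≤ t → t < b → A t ∧ ¬ W t := by
    intro t h1 h2
    have := Nat.find_min hex (m := t.toNat) (by omega)
    rw [show ((t.toNat : ℕ) : ℤ) = t by omega] at this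
    exact not_not.1 this
  have b0 : b ≠ 0 := by
    intro h
    rw [h] at hspec
    exact hspec ⟨A0, n0⟩
  have b1 : 1 ≤ b := by omega
  have bq : b < q := by
    by_contra hcon
    obtain ⟨w, h1, h2, h3, h4⟩ := F q q q
    have h5 := G.lo _ (G.sub _ h1)
    have h6 := G.hi _ (G.sub _ h1)
    exact (blk w h5 (by omega)).2 h1
  by_cases hA : A b
  · have hW : W b := by
      by_contra h
      exact hspec ⟨hA, h⟩
    have H : CA q A W (b + 1) := by
      refine ⟨G, F, by omega, ?_, ?_, wq⟩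
      · intro t h1 h2
        exact blk t h1 (by omega)
      · rwa [show b + 1 - 1 = b by omega]
    exact H.false
  · have hW : W (q - b) := by
      obtain ⟨u, v, hu, hv, e, h⟩ := G.cov (q - b) (by omega) (by omega)
      have u0 := G.lo _ hu
      have vq := G.hi _ hv
      by_cases h1 : u = b
      · exact absurd (h1 ▸ hu) hA
      · rcases h with h | h
        · exact absurd h (blk u u0 (by omega)).2
        · by_cases h2 : u = 0
          · rwa [show q - b = v by omega]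
          · exfalso
            exact G.bad 0 v (q - v) q A0 hv (Or.inr h) (blk _ (by omega) (by omega)).1 Aq
              (Or.inr wq) (by omega) (by omega) (by omega)
    exact CB.false ⟨G, F, b1, blk, hA, wq, hW⟩

theorem Gr.main (G : Gr q A W) (F : Four W) (q1 : 1 ≤ q) (n : ℤ) (hn : A n) (hn' : ¬ W n) :
    False := by
  obtain ⟨u, v, hu, hv, e, h⟩ := G.cov q q1 (le_refl q)
  have u0 := G.lo _ hu
  have vq := G.hi _ hv
  have hu0 : u = 0 := by omega
  have hvq : v = q := by omega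
  subst hu0 hvq
  by_cases h1 : W 0
  · by_cases h2 : W v
    · exact caseI G F h1 h2 n hn hn'
    · exact caseII (q := v) (A := fun z => A (v - z)) (W := fun z => W (v - z)) G.refl F.refl
        (by simpa using hv) (by simpa using h2) (by simpa using h1)
  · rcases h with h | h
    · exact h1 h
    · exact caseII G F hu h1 h

end Pool.Agent.Work.MP_7fd98a_co.Split
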