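import Pool.Agent.Work.MP_7fd98a_co.Split.Defs

namespace Pool.Agent.Work.MP_7fd98a_co.Split

variable {q c : ℤ} {A W : ℤ → Prop}

theorem CI.full (H : CI q A W c) : CI' q A W c := by
  have G := H.g
  have c1 := H.c1
  have A0 := G.sub _ H.w0
  have Aq := G.sub _ H.wq
  have Ac := G.sub _ H.wc
  have hc0 := G.lo _ Ac
  -- q > 2 c
  have hne : q - c ≠ 0 := by
    intro h
    obtain ⟨w, h1, h2, h3, h4⟩ := H.four 0 q 0
    have := H.wm w h1 h2 h3
    omega
  have h2c : 2 * c < q := by
    have h1 := (H.wm _ H.wc hne (by omega)).1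
    rcases lt_or_eq_of_le h1 with h | h
    · omega
    · exfalso
      exact G.bad 0 (q - c) (q - c) q A0 Ac (Or.inl H.w0) Ac Aq (Or.inl H.wc) (by omega)
        (by omega) (by omega)
  -- levels below c
  have lev : ∀ t, 1 ≤ t → t < c → A t ∨ A (q - t) := by
    intro t h1 h2
    obtain ⟨u, v, hu, hv, e, h⟩ := G.cov (q - t) (by omega) (by omega)
    have u0 := G.lo _ hu
    have vq := G.hi _ hv
    by_cases hu0 : u = 0
    · right; rwa [show q - t = v by omega]
    · by_cases hv0 : v = q
      · left; rwa [show t = u by omega]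
      · exfalso
        rcases h with h | h
        · have := H.wm u h hu0 (by omega); omega
        · have := H.wm v h (by omega) hv0; omega
  have top : ∀ t, 1 ≤ t → t < c → ¬ A (q - t) := by
    intro t h1 h2 h3
    rcases lev (c - t) (by omega) (by omega) with h | h
    · exact G.bad 0 (c - t) (q - c) (q - t) A0 h (Or.inl H.w0) Ac h3 (Or.inl H.wc) (by omega)
        (by omega) (by omega)
    · exact G.bad (q - (c - t)) q (q - c) (q - t) h Aq (Or.inr H.wq) Ac h3 (Or.inl H.wc)
        (by omega) (by omega) (by omega)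
  have blk : ∀ t, 0 ≤ t → t < c → A t := by
    intro t h1 h2
    rcases eq_or_lt_of_le h1 with h | h
    · rwa [← h]
    · rcases lev t (by omega) h2 with h' | h'
      · exact h'
      · exact absurd h' (top t (by omega) h2)
  have gap : ∀ t, c ≤ t → t < 2 * c → ¬ A t := by
    intro t h1 h2 h3
    exact G.bad (t - c) (q - c) t q (blk _ (by omega) (by omega)) Ac (Or.inr H.wc) h3 Aq
      (Or.inr H.wq) (by omega) (by omega) (by omega)
  have h3c : 3 * c ≤ q := by
    by_contra h
    exact gap (q - c) (by omega) (by omega) Ac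
  have gap1 : ∀ t, c < t → t < 2 * c → ¬ A (q - t) := by
    intro t h1 h2 h3
    exact G.bad 0 (t - c) (q - t) (q - c) A0 (blk _ (by omega) (by omega)) (Or.inl H.w0) h3 Ac
      (Or.inr H.wc) (by omega) (by omega) (by omega)
  have h3c' : 3 * c ≠ q := by
    intro h
    obtain ⟨w, w1, w2, w3, w4⟩ := H.four 0 q (q - c)
    have w5 := H.wm w w1 w2 w3
    have Aw := G.sub _ w1
    exact gap w (by omega) (by omega) Aw
  have q2 : ¬ A (q - 2 * c) := by
    intro h
    exact G.bad (q - 2 * c) (q - c) (q - c) q h Ac (Or.inr H.wc) Ac Aq (Or.inr H.wq) (by omega)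
      (by omega) (by omega)
  have gap' : ∀ t, c < t → t ≤ 2 * c → ¬ A (q - t) := by
    intro t h1 h2 h3
    rcases lt_or_eq_of_le h2 with h | h
    · exact gap1 t h1 h h3
    · exact q2 (by rwa [← h])
  have two : A (2 * c) := by
    obtain ⟨u, v, hu, hv, e, h⟩ := G.cov (q - 2 * c) (by omega) (by omega)
    have u0 := G.lo _ hu
    have vq := G.hi _ hv
    rcases eq_or_lt_of_le u0 with h' | h'
    · exfalso; exact q2 (by rwa [show q - 2 * c = v by omega])
    · by_cases h3 : u < c
      · exfalso
        exact gap' (2 * c - u) (by omega) (by omega) (by rwa [show q - (2 * c - u) = v by omega])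
      · by_cases h4 : u < 2 * c
        · exact absurd hu (gap u (by omega) h4)
        · rwa [show 2 * c = u by omega]
  refine ⟨H, blk, top, gap, gap', ?_, two⟩
  by_contra hcon
  by_cases h4 : q = 4 * c
  · exact G.bad (2 * c) (q - c) (q - c) q two Ac (Or.inr H.wc) Ac Aq (Or.inr H.wq) (by omega)
      (by omega) (by omega)
  · exact G.bad 0 (q - 3 * c) (2 * c) (q - c) A0 (blk _ (by omega) (by omega)) (Or.inl H.w0) two
      Ac (Or.inr H.wc) (by omega) (by omega) (by omega)

/-- `x` low. -/
theorem CI'.low (H : CI' q A W c) (hN : ¬ W (2 * c)) (x : ℤ) (hx : W x) (x0 : x ≠ 0)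
    (xq : x ≠ q) (xc : x ≠ q - c) (hx2 : 2 * x ≤ q)
    (hm : ∀ w, W w → w ≠ 0 → w ≠ q → w ≠ q - c → x ≤ w ∧ w ≤ q - x) : False := by
  have G := H.base.g
  have c1 := H.base.c1
  have A0 := G.sub _ H.base.w0
  have Aq := G.sub _ H.base.wq
  have Ac := G.sub _ H.base.wc
  have Ax := G.sub _ hx
  have big := H.big
  have hx1 : 2 * c < x := by
    have := H.base.wm x hx x0 xq
    by_contra hcon
    by_cases h : x = 2 * c
    · exact hN (by rwa [← h])
    · exact H.gap x (by omega) (by omega) Ax
  obtain ⟨u, v, hu, hv, e, h⟩ := G.cov (q - x + c) (by omega) (by omega)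
  have u0 := G.lo _ hu
  have vq := G.hi _ hv
  have c2 : v = q → False := by
    intro h
    have : u = x - c := by omega
    subst this
    exact G.bad (x - c) (q - c) x q hu Ac (Or.inr H.base.wc) Ax Aq (Or.inr H.base.wq) (by omega)
      (by omega) (by omega)
  have c3 : v = q - c → False := by
    intro h
    have : u = x - 2 * c := by omega
    subst this
    exact G.bad 0 (2 * c) (x - 2 * c) x A0 H.two (Or.inl H.base.w0) hu Ax (Or.inr hx) (by omega)
      (by omega) (by omega)
  have c4 : u = 0 → False := by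
    intro h
    exact G.bad (2 * c) x v (q - c) H.two Ax (Or.inr hx) hv Ac (Or.inr H.base.wc) (by omega)
      (by omega) (by omega)
  rcases h with h | h
  · by_cases h0 : u = 0
    · exact c4 h0
    · by_cases h1 : u = q
      · omega
      · by_cases h2 : u = q - c
        · exact c2 (by omega)
        · have := hm u h h0 h1 h2; omega
  · by_cases h0 : v = 0
    · omega
    · by_cases h1 : v = q
      · exact c2 h1
      · by_cases h2 : v = q - c
        · exact c3 h2
        · have := hm v h h0 h1 h2; omega

/-- `x = q - t` high. -/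
theorem CI'.high (H : CI' q A W c) (hN : ¬ W (2 * c)) (x : ℤ) (hx : W x) (x0 : x ≠ 0)
    (xq : x ≠ q) (xc : x ≠ q - c) (hx2 : q < 2 * x)
    (hm : ∀ w, W w → w ≠ 0 → w ≠ q → w ≠ q - c → q - x ≤ w ∧ w ≤ x) : False := by
  have G := H.base.g
  have c1 := H.base.c1
  have A0 := G.sub _ H.base.w0
  have Aq := G.sub _ H.base.wq
  have Ac := G.sub _ H.base.wc
  have Ax := G.sub _ hx
  have big := H.big
  have hx1 : x < q - 2 * c := by
    have := H.base.wm x hx x0 xq
    by_contra hcon
    exact H.gap' (q - x) (by omega) (by omega) (by rwa [show q - (q - x) = x by omega])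
  have topv : ∀ v, A v → q - c ≤ v → v = q - c ∨ v = q := by
    intro v hv h1
    have := G.hi _ hv
    by_contra hcon
    push_neg at hcon
    exact H.top (q - v) (by omega) (by omega) (by rwa [show q - (q - v) = v by omega])
  obtain ⟨u, v, hu, hv, e, h⟩ := G.cov (x - c) (by omega) (by omega)
  have u0 := G.lo _ hu
  have vq := G.hi _ hv
  have c1' : u = 0 → False := by
    intro h
    have : v = x - c := by omega
    subst this
    exact G.bad (x - c) x (q - c) q hv Ax (Or.inr hx) Ac Aq (Or.inr H.base.wq) (by omega)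
      (by omega) (by omega)
  have c2 : v = q → False := by
    intro h
    exact G.bad u (q - c) (2 * c) x hu Ac (Or.inr H.base.wc) H.two Ax (Or.inr hx) (by omega)
      (by omega) (by omega)
  have c3 : v = q - c → False := by
    intro h
    exact G.bad u q 0 x hu Aq (Or.inr H.base.wq) A0 Ax (Or.inr hx) (by omega)
      (by omega) (by omega)
  rcases h with h | h
  · by_cases h0 : u = 0
    · exact c1' h0
    · by_cases h1 : u = q
      · omega
      · by_cases h2 : u = q - c
        · omega
        · have := hm u h h0 h1 h2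
          rcases topv v hv (by omega) with h | h
          · exact c3 h
          · exact c2 h
  · by_cases h0 : v = 0
    · omega
    · by_cases h1 : v = q
      · exact c2 h1
      · by_cases h2 : v = q - c
        · exact c3 h2
        · have := hm v h h0 h1 h2
          by_cases h3 : v = x
          · exact H.gap u (by omega) (by omega) hu
          · by_cases h4 : u = 0
            · exact c1' h4
            · exact G.bad 0 (x - v) v x A0 (H.blk _ (by omega) (by omega)) (Or.inl H.base.w0) hv Ax
                (Or.inr hx) (by omega) (by omega) (by omega)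

/-- `2 c` a single, `c ≥ 2`. -/
theorem CI'.two_ge (H : CI' q A W c) (hc2 : 2 ≤ c) (hN : W (2 * c)) : False := by
  have G := H.base.g
  have c1 := H.base.c1
  have A0 := G.sub _ H.base.w0
  have Aq := G.sub _ H.base.wq
  have Ac := G.sub _ H.base.wc
  have A2 := H.two
  have big := H.big
  obtain ⟨u, v, hu, hv, e, h⟩ := G.cov (q - 2 * c - 1) (by omega) (by omega)
  have u0 := G.lo _ hu
  have vq := G.hi _ hv
  by_cases h0 : u = 0
  · exact G.bad (c - 1) (2 * c) v (q - c) (H.blk _ (by omega) (by omega)) A2 (Or.inr hN) hv Ac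
      (Or.inr H.base.wc) (by omega) (by omega) (by omega)
  · by_cases h1 : u < c
    · exact H.gap' (q - v) (by omega) (by omega) (by rwa [show q - (q - v) = v by omega])
    · by_cases h2 : u < 2 * c
      · exact H.gap u (by omega) h2 hu
      · by_cases h3 : u = 2 * c
        · exact H.top 1 (by omega) (by omega) (by rwa [show q - 1 = v by omega])
        · exact G.bad 0 1 (2 * c) u A0 (H.blk _ (by omega) (by omega)) (Or.inl H.base.w0) A2 hu
            (Or.inl hN) (by omega) (by omega) (by omega)

/-- `2 c` a single, `c = 1`. -/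
theorem CI'.two_one (H : CI' q A W 1) (hN : W 2) (n : ℤ) (hn : A n) (hn' : ¬ W n) : False := by
  have G := H.base.g
  have A0 := G.sub _ H.base.w0
  have Aq := G.sub _ H.base.wq
  have Ac := G.sub _ H.base.wc
  have A2 := G.sub _ hN
  have big := H.big
  have W1 := H.base.wc
  have n1 : ¬ A 1 := H.gap 1 (by omega) (by omega)
  have n2 : ¬ A (q - 2) := H.gap' 2 (by omega) (by omega)
  have n3 : ¬ A 3 := by
    intro h
    exact G.bad 2 (q - 1) 3 q A2 Ac (Or.inl hN) h Aq (Or.inr H.base.wq) (by omega) (by omega)
      (by omega)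
  have q5 : q ≠ 5 := by
    intro h
    subst h
    exact G.bad 0 2 2 (5 - 1) A0 A2 (Or.inl H.base.w0) A2 Ac (Or.inl hN) (by omega) (by omega)
      (by omega)
  have n4 : ¬ A 4 := by
    intro h
    exact G.bad 0 2 2 4 A0 A2 (Or.inl H.base.w0) A2 h (Or.inl hN) (by omega) (by omega)
      (by omega)
  have m3 : ¬ A (q - 3) := by
    intro h
    exact G.bad 2 (q - 1) 0 (q - 3) A2 Ac (Or.inl hN) A0 h (Or.inl H.base.w0) (by omega)
      (by omega) (by omega)
  have lo4 : ∀ a, A a → a = 0 ∨ a = 2 ∨ 5 ≤ a := by
    intro a ha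
    have := G.lo _ ha
    by_contra hcon
    push_neg at hcon
    have : a = 1 ∨ a = 3 ∨ a = 4 := by omega
    rcases this with h | h | h
    · exact n1 (by rwa [← h])
    · exact n3 (by rwa [← h])
    · exact n4 (by rwa [← h])
  have hi4 : ∀ a, A a → a ≤ q - 4 ∨ a = q - 1 ∨ a = q := by
    intro a ha
    have := G.hi _ ha
    by_contra hcon
    push_neg at hcon
    have : a = q - 2 ∨ a = q - 3 := by omega
    rcases this with h | h
    · exact n2 (by rwa [← h])
    · exact m3 (by rwa [← h])
  by_cases h10 : q ≤ 9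
  · have m4 : q = 9 → ¬ A 5 := by
      intro h h5
      subst h
      exact G.bad 2 5 5 (9 - 1) A2 h5 (Or.inl hN) h5 Ac (Or.inr H.base.wc) (by omega) (by omega)
        (by omega)
    have all : ∀ a, A a → a = 0 ∨ a = 2 ∨ a = q - 1 ∨ a = q := by
      intro a ha
      have h1 := lo4 a ha
      have h2 := hi4 a ha
      by_cases h9 : a = 5 ∧ q = 9
      · exact absurd (h9.1 ▸ ha) (m4 h9.2)
      · omega
    have hnW : W n := by
      rcases all n hn with h | h | h | h
      · rw [h]; exact H.base.w0
      · rw [h]; exact hN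
      · rw [h]; exact W1
      · rw [h]; exact H.base.wq
    exact hn' hnW
  · have hq4 : A (q - 4) := by
      obtain ⟨u, v, hu, hv, e, h⟩ := G.cov (q - 4) (by omega) (by omega)
      have h1 := lo4 u hu
      have h2 := hi4 v hv
      have u0 := G.lo _ hu
      have vq := G.hi _ hv
      have : v = q - 4 := by omega
      rwa [← this]
    obtain ⟨u, v, hu, hv, e, h⟩ := G.cov (q - 5) (by omega) (by omega)
    have h1 := lo4 u hu
    have h2 := hi4 v hv
    have u0 := G.lo _ hu
    have vq := G.hi _ hv
    by_cases h3 : u = 0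
    · exact G.bad v (q - 1) (q - 4) q hv Ac (Or.inr W1) hq4 Aq (Or.inr H.base.wq) (by omega)
        (by omega) (by omega)
    · have : u = 5 := by omega
      subst this
      exact G.bad 2 5 (q - 4) (q - 1) A2 hu (Or.inl hN) hq4 Ac (Or.inr W1) (by omega)
        (by omega) (by omega)

end Pool.Agent.Work.MP_7fd98a_co.Split
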