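import Pool.Agent.Work.MP_7fd98a_co.Split.Defs

namespace Pool.Agent.Work.MP_7fd98a_co.Split

variable {q b : ℤ} {A W : ℤ → Prop}

/-- Residue modulo `2 b`. -/
def md (b t : ℤ) : ℤ := t % (2 * b)

theorem md_range (hb : 1 ≤ b) (t : ℤ) : 0 ≤ md b t ∧ md b t < 2 * b :=
  ⟨Int.emod_nonneg _ (by omega), Int.emod_lt_of_pos _ (by omega)⟩

theorem md_small (t : ℤ) (h1 : 0 ≤ t) (h2 : t < 2 * b) : md b t = t :=
  Int.emod_eq_of_lt h1 h2

theorem md_eq (hb : 1 ≤ b) (t u k : ℤ) (h : t - u = 2 * b * k) : md b t = md b u := by
  unfold md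
  have : t = u + 2 * b * k := by omega
  rw [this, Int.add_mul_emod_self_left]

theorem md_sub (hb : 1 ≤ b) (x d : ℤ) :
    (md b d ≤ md b x ∧ md b (x - d) = md b x - md b d) ∨
      (md b x < md b d ∧ md b (x - d) = md b x - md b d + 2 * b) := by
  have hx := md_range hb x
  have hd := md_range hb d
  have ex : x = md b x + 2 * b * (x / (2 * b)) := by
    unfold md; rw [Int.emod_add_mul_ediv]
  have ed : d = md b d + 2 * b * (d / (2 * b)) := by
    unfold md; rw [Int.emod_add_mul_ediv]
  by_cases h : md b d ≤ md b x
  · left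
    refine ⟨h, ?_⟩
    have h1 := md_eq hb (x - d) (md b x - md b d) (x / (2 * b) - d / (2 * b)) (by
      rw [mul_sub]; omega)
    rw [h1, md_small _ (by omega) (by omega)]
  · right
    refine ⟨by omega, ?_⟩
    have h1 := md_eq hb (x - d) (md b x - md b d + 2 * b) (x / (2 * b) - d / (2 * b) - 1) (by
      rw [mul_sub, mul_sub]; omega)
    rw [h1, md_small _ (by omega) (by omega)]

theorem md_self (hb : 1 ≤ b) : md b b = b := md_small b (by omega) (by omega)

/-- Case IIb. -/
structure CB (q : ℤ) (A W : ℤ → Prop) (b : ℤ) : Prop where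
  g : Gr q A W
  four : Four W
  b1 : 1 ≤ b
  blk : ∀ t, 0 ≤ t → t < b → A t ∧ ¬ W t
  nb : ¬ A b
  wq : W q
  wb : W (q - b)

structure CB' (q : ℤ) (A W : ℤ → Prop) (b : ℤ) : Prop where
  base : CB q A W b
  gap : ∀ t, b ≤ t → t < 2 * b → ¬ A t
  hiW : ∀ t, 1 ≤ t → t ≤ 2 * b → t ≠ b → ¬ W (q - t)
  q2 : ¬ A (q - 2 * b)
  two : A (2 * b)
  big : 3 * b < q

theorem CB.full (H : CB q A W b) : CB' q A W b := by
  have G := H.g
  have b1 := H.b1
  have Aq := G.sub _ H.wq
  have Ab := G.sub _ H.wb
  have A0 := (H.blk 0 (by omega) (by omega)).1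
  have hb0 := G.lo _ Ab
  have hb1 : b < q - b := by
    by_contra hcon
    by_cases h : q - b < b
    · exact (H.blk _ hb0 h).2 H.wb
    · exact H.nb (by rwa [show q - b = b by omega] at Ab)
  have gap : ∀ t, b ≤ t → t < 2 * b → ¬ A t := by
    intro t h1 h2 h3
    exact G.bad (t - b) (q - b) t q (H.blk _ (by omega) (by omega)).1 Ab (Or.inr H.wb) h3 Aq
      (Or.inr H.wq) (by omega) (by omega) (by omega)
  have h3b : 3 * b ≤ q := by
    by_contra h
    exact gap (q - b) (by omega) (by omega) Ab
  have hiW1 : ∀ t, 1 ≤ t → t < b → ¬ W (q - t) := by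
    intro t h1 h2 h3
    exact G.bad 0 (q - t) t q A0 (G.sub _ h3) (Or.inr h3) (H.blk _ (by omega) (by omega)).1 Aq
      (Or.inr H.wq) (by omega) (by omega) (by omega)
  have hiW2 : ∀ t, b < t → t < 2 * b → ¬ W (q - t) := by
    intro t h1 h2 h3
    exact G.bad 0 (q - t) (t - b) (q - b) A0 (G.sub _ h3) (Or.inr h3)
      (H.blk _ (by omega) (by omega)).1 Ab (Or.inr H.wb) (by omega) (by omega) (by omega)
  have q2 : ¬ A (q - 2 * b) := by
    intro h
    exact G.bad (q - 2 * b) (q - b) (q - b) q h Ab (Or.inr H.wb) Ab Aq (Or.inr H.wq) (by omega)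
      (by omega) (by omega)
  have hiW : ∀ t, 1 ≤ t → t ≤ 2 * b → t ≠ b → ¬ W (q - t) := by
    intro t h1 h2 h3 h4
    by_cases h : t < b
    · exact hiW1 t h1 h h4
    · by_cases h' : t < 2 * b
      · exact hiW2 t (by omega) h' h4
      · exact q2 (by rw [show 2 * b = t by omega]; exact G.sub _ h4)
  have two : A (2 * b) := by
    obtain ⟨u, v, hu, hv, e, h⟩ := G.cov (q - 2 * b) (by omega) (by omega)
    have u0 := G.lo _ hu
    have vq := G.hi _ hv
    rcases h with h | h
    · by_cases h1 : u < b
      · exact absurd h (H.blk u u0 h1).2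
      · by_cases h2 : u < 2 * b
        · exact absurd hu (gap u (by omega) h2)
        · rwa [show 2 * b = u by omega]
    · by_cases h1 : v = q
      · rwa [show 2 * b = u by omega]
      · by_cases h2 : v = q - b
        · exact absurd (by rwa [show u = b by omega] at hu) H.nb
        · exact absurd (by rwa [show v = q - (q - v) by omega] at h)
            (hiW (q - v) (by omega) (by omega) (by omega))
  refine ⟨H, gap, hiW, q2, two, ?_⟩
  by_contra hcon
  have hq : q = 3 * b := by omega
  obtain ⟨w, w1, w2, w3, w4⟩ := H.four q (q - b) q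
  have Aw := G.sub _ w1
  have h5 := G.lo _ Aw
  have h6 := G.hi _ Aw
  by_cases h1 : w < b
  · exact (H.blk w h5 h1).2 w1
  · by_cases h2 : w < 2 * b
    · exact gap w (by omega) h2 Aw
    · exact hiW (q - w) (by omega) (by omega) (by omega) (by
        rwa [show q - (q - w) = w by omega])

theorem CB'.pos (H : CB' q A W b) (x : ℤ) (hx : W x) (x1 : x ≠ q) (x2 : x ≠ q - b) :
    2 * b ≤ x ∧ x < q - 2 * b := by
  have G := H.base.g
  have Ax := G.sub _ hx
  have h5 := G.lo _ Ax
  have h6 := G.hi _ Ax
  constructor
  · by_contra hcon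
    by_cases h1 : x < b
    · exact (H.base.blk x h5 h1).2 hx
    · exact H.gap x (by omega) (by omega) Ax
  · by_contra hcon
    exact H.hiW (q - x) (by omega) (by omega) (by omega) (by
      rwa [show q - (q - x) = x by omega])

theorem CB'.high (H : CB' q A W b) (x : ℤ) (hx : W x) (x1 : x ≠ q) (x2 : x ≠ q - b)
    (hx2 : q < 2 * x) (hm : ∀ w, W w → w ≠ q → w ≠ q - b → q - x ≤ w ∧ w ≤ x) : False := by
  have G := H.base.g
  have b1 := H.base.b1
  have Aq := G.sub _ H.base.wq
  have Ab := G.sub _ H.base.wb
  have A0 := (H.base.blk 0 (by omega) (by omega)).1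
  have Ax := G.sub _ hx
  have big := H.big
  have hp := H.pos x hx x1 x2
  have nA : ∀ a, 0 ≤ a → a < b → ¬ A (a + (q - x)) := by
    intro a h1 h2 h3
    exact G.bad a x (a + (q - x)) q (H.base.blk a h1 h2).1 Ax (Or.inr hx) h3 Aq
      (Or.inr H.base.wq) (by omega) (by omega) (by omega)
  obtain ⟨u, v, hu, hv, e, h⟩ := G.cov (x - b) (by omega) (by omega)
  have u0 := G.lo _ hu
  have vq := G.hi _ hv
  have k1 : v = q → False := by
    intro h
    exact G.bad u (q - b) (2 * b) x hu Ab (Or.inr H.base.wb) H.two Ax (Or.inr hx) (by omega)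
      (by omega) (by omega)
  have k2 : q - b ≤ v → False := by
    intro h
    by_cases h1 : v = q
    · exact k1 h1
    · exact nA (v - (q - b)) (by omega) (by omega) (by
        rwa [show v - (q - b) + (q - x) = u by omega])
  rcases h with h | h
  · by_cases h0 : u = q
    · omega
    · by_cases h1 : u = q - b
      · omega
      · have := hm u h h0 h1
        exact k2 (by omega)
  · by_cases h0 : v = q
    · exact k1 h0
    · by_cases h1 : v = q - b
      · exact k2 (by omega)
      · have := hm v h h0 h1
        by_cases h2 : v = x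
        · exact H.gap u (by omega) (by omega) hu
        · by_cases h3 : u = 0
          · exact G.bad v x (q - b) q hv Ax (Or.inr hx) Ab Aq (Or.inr H.base.wq) (by omega)
              (by omega) (by omega)
          · exact G.bad 0 v (x - v) x A0 hv (Or.inr h) (H.base.blk _ (by omega) (by omega)).1 Ax
              (Or.inr hx) (by omega) (by omega) (by omega)

/-- Below the third single the labels are alternating blocks of length `b`. -/
theorem CB'.pat (H : CB' q A W b) (x : ℤ) (hx2 : 2 * x ≤ q)
    (hm : ∀ w, W w → w ≠ q → w ≠ q - b → x ≤ w ∧ w ≤ q - x) :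
    ∀ t, 0 ≤ t → t < x → (A t ↔ md b t < b) := by
  have G := H.base.g
  have b1 := H.base.b1
  have Aq := G.sub _ H.base.wq
  have Ab := G.sub _ H.base.wb
  have big := H.big
  have key : ∀ n : ℕ, ∀ t, 0 ≤ t → t < x → t < n → (A t ↔ md b t < b) := by
    intro n
    induction n with
    | zero => intro t h1 _ h3; exact absurd h3 (by push_cast; omega)
    | succ n ih =>
      intro t h1 h2 h3
      push_cast at h3
      by_cases hb : t < b
      · rw [md_small t h1 (by omega)]
        exact ⟨fun _ => hb, fun _ => (H.base.blk t h1 hb).1⟩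
      · have ih' := ih (t - b) (by omega) (by omega) (by omega)
        have hr := md_range b1 t
        have hs := md_sub b1 t b
        rw [md_self b1] at hs
        constructor
        · intro hA
          by_contra hcon
          have : A (t - b) := ih'.2 (by omega)
          exact G.bad (t - b) (q - b) t q this Ab (Or.inr H.base.wb) hA Aq (Or.inr H.base.wq)
            (by omega) (by omega) (by omega)
        · intro hlt
          have hn : ¬ A (t - b) := by
            intro h
            have := ih'.1 h
            omega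
          obtain ⟨u, v, hu, hv, e, h⟩ := G.cov (q - t) (by omega) (by omega)
          have u0 := G.lo _ hu
          have vq := G.hi _ hv
          rcases h with h | h
          · by_cases h0 : u = q
            · omega
            · by_cases h1 : u = q - b
              · omega
              · have := hm u h h0 h1
                omega
          · by_cases h0 : v = q
            · rwa [show t = u by omega]
            · by_cases h1 : v = q - b
              · exact absurd (by rwa [show u = t - b by omega] at hu) hn
              · have := hm v h h0 h1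
                omega
  intro t h1 h2
  exact key (t.toNat + 1) t h1 h2 (by omega)

end Pool.Agent.Work.MP_7fd98a_co.Split
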