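import Pool.Agent.Work.MP_7fd98a_co.Split.C2b

namespace Pool.Agent.Work.MP_7fd98a_co.Split

variable {q b x : ℤ} {A W : ℤ → Prop}

/-- Structure around the third single `x` (low). -/
structure CB3 (q : ℤ) (A W : ℤ → Prop) (b x : ℤ) : Prop where
  base : CB' q A W b
  hx : W x
  xb : 2 * b ≤ x
  xq : 2 * x + 2 * b + 1 ≤ q
  hm : ∀ w, W w → w ≠ q → w ≠ q - b → w ≠ x → x + b ≤ w ∧ w ≤ q - x - b - 1
  r : md b x = 0 ∨ md b x = b - 1
  top : ∀ j, 1 ≤ j → j < b → ¬ A (q - j)
  pat : ∀ t, 0 ≤ t → t < x - md b x + 2 * b → (A t ↔ md b t < b)

theorem CB'.low (H : CB' q A W b) (x : ℤ) (hx : W x) (x1 : x ≠ q) (x2 : x ≠ q - b)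
    (hx2 : 2 * x ≤ q) (hm : ∀ w, W w → w ≠ q → w ≠ q - b → x ≤ w ∧ w ≤ q - x) :
    CB3 q A W b x := by
  have G := H.base.g
  have b1 := H.base.b1
  have Aq := G.sub _ H.base.wq
  have Ab := G.sub _ H.base.wb
  have blk := H.base.blk
  have A0 := (blk 0 (by omega) (by omega)).1
  have Ax := G.sub _ hx
  have big := H.big
  have hp := H.pos x hx x1 x2
  have pat := H.pat x hx2 hm
  have hr := md_range b1 x
  have nxb : ¬ A (x - b) := by
    intro h
    exact G.bad (x - b) (q - b) x q h Ab (Or.inr H.base.wb) Ax Aq (Or.inr H.base.wq) (by omega)
      (by omega) (by omega)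
  have hx2' : 2 * x < q := by
    rcases lt_or_eq_of_le hx2 with h | h
    · exact h
    · exfalso
      exact G.bad 0 x x q A0 Ax (Or.inr hx) Ax Aq (Or.inr H.base.wq) (by omega)
        (by omega) (by omega)
  have rlt : md b x < b := by
    by_contra hcon
    have hs := md_sub b1 x b
    rw [md_self b1] at hs
    exact nxb ((pat (x - b) (by omega) (by omega)).2 (by omega))
  -- no single just after x
  have nlo : ∀ h, 1 ≤ h → h < b → ¬ W (x + h) := by
    intro h h1 h2 h3
    exact G.bad h (x + h) 0 x (blk h (by omega) h2).1 (G.sub _ h3) (Or.inr h3) A0 Ax (Or.inr hx)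
      (by omega) (by omega) (by omega)
  have nhi : ∀ h, 0 ≤ h → h ≤ b → ¬ W (q - x - h) := by
    intro h h1 h2 h3
    by_cases h0 : h = 0
    · subst h0
      exact G.bad 0 (q - x - 0) x q A0 (G.sub _ h3) (Or.inr h3) Ax Aq (Or.inr H.base.wq)
        (by omega) (by omega) (by omega)
    · exact G.bad (b - h) (q - x - h) x (q - b) (blk _ (by omega) (by omega)).1 (G.sub _ h3)
        (Or.inr h3) Ax Ab (Or.inl hx) (by omega) (by omega) (by omega)
  have hm' : ∀ w, W w → w ≠ q → w ≠ q - b → w ≠ x → x + b ≤ w ∧ w ≤ q - x - b - 1 := by
    intro w h1 h2 h3 h4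
    have h5 := hm w h1 h2 h3
    constructor
    · by_contra hcon
      exact nlo (w - x) (by omega) (by omega) (by rwa [show x + (w - x) = w by omega])
    · by_contra hcon
      exact nhi (q - x - w) (by omega) (by omega) (by
        rwa [show q - x - (q - x - w) = w by omega])
  have xq : 2 * x + 2 * b + 1 ≤ q := by
    obtain ⟨w, w1, w2, w3, w4⟩ := H.base.four q (q - b) x
    have := hm' w w1 w2 w3 w4
    omega
  -- the residue of x
  have r : md b x = 0 ∨ md b x = b - 1 := by
    by_contra hcon
    push_neg at hcon
    obtain ⟨hc1, hc2⟩ := hcon
    have Axm : A (x - 1) := by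
      have hs := md_sub b1 x 1
      rw [md_small 1 (by omega) (by omega)] at hs
      exact (pat (x - 1) (by omega) (by omega)).2 (by omega)
    obtain ⟨u, v, hu, hv, e, h⟩ := G.cov (q - x - 1) (by omega) (by omega)
    have u0 := G.lo _ hu
    have vq := G.hi _ hv
    have k1 : v = q → False := by
      intro h
      exact G.bad x u (x - 1) x Ax hu (Or.inl hx) Axm Ax (Or.inr hx) (by omega)
        (by omega) (by omega)
    rcases h with h | h
    · by_cases h0 : u = q
      · omega
      · by_cases h1 : u = q - b
        · omega
        · by_cases h2 : u = x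
          · exact G.bad v q (x - 1) x hv Aq (Or.inr H.base.wq) Axm Ax (Or.inr hx) (by omega)
              (by omega) (by omega)
          · have := hm' u h h0 h1 h2
            omega
    · by_cases h0 : v = q
      · exact k1 h0
      · by_cases h1 : v = q - b
        · have hs := md_sub b1 x (b - 1)
          rw [md_small (b - 1) (by omega) (by omega)] at hs
          have := (pat u u0 (by omega)).1 hu
          rw [show u = x - (b - 1) by omega] at this
          omega
        · by_cases h2 : v = x
          · omega
          · have := hm' v h h0 h1 h2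
            omega
  -- residues after x
  have mda : ∀ i, 1 ≤ i → i ≤ b → md b (x + i) = md b x + i := by
    intro i h1 h2
    have hs := md_sub b1 (x + i) i
    rw [md_small i (by omega) (by omega), show x + i - i = x by omega] at hs
    have := md_range b1 (x + i)
    omega
  have mdb : ∀ i, 1 ≤ i → i < b → md b x = 0 → md b (x + i - b) = b + i := by
    intro i h1 h2 h3
    have hs := md_sub b1 (x + i) b
    rw [md_self b1, mda i h1 (by omega)] at hs
    have := md_range b1 (x + i - b)
    omega
  -- levels x + i when md x = 0
  have lev : md b x = 0 → ∀ i, 1 ≤ i → i < b → A (x + i) ∨ A (q - i) := by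
    intro hr0 i h1 h2
    obtain ⟨u, v, hu, hv, e, h⟩ := G.cov (q - x - i) (by omega) (by omega)
    have u0 := G.lo _ hu
    have vq := G.hi _ hv
    rcases h with h | h
    · by_cases h0 : u = q
      · omega
      · by_cases h1 : u = q - b
        · omega
        · by_cases h2 : u = x
          · right; rwa [show q - i = v by omega]
          · have := hm' u h h0 h1 h2
            omega
    · by_cases h0 : v = q
      · left; rwa [show x + i = u by omega]
      · by_cases h1' : v = q - b
        · exfalso
          have := (pat u u0 (by omega)).1 hu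
          rw [show u = x + i - b by omega, mdb i h1 h2 hr0] at this
          omega
        · by_cases h2 : v = x
          · omega
          · have := hm' v h h0 h1' h2
            omega
  have top : ∀ j, 1 ≤ j → j < b → ¬ A (q - j) := by
    intro j h1 h2 h3
    rcases r with hr0 | hr0
    · rcases lev hr0 (b - j) (by omega) (by omega) with h | h
      · exact G.bad x (x + (b - j)) (q - b) (q - j) Ax h (Or.inl hx) Ab h3 (Or.inl H.base.wb)
          (by omega) (by omega) (by omega)
      · exact G.bad (q - (b - j)) q (q - b) (q - j) h Aq (Or.inr H.base.wq) Ab h3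
          (Or.inl H.base.wb) (by omega) (by omega) (by omega)
    · have hs := md_sub b1 x j
      rw [md_small j (by omega) (by omega)] at hs
      have Axj : A (x - j) := (pat (x - j) (by omega) (by omega)).2 (by omega)
      exact G.bad (q - j) q (x - j) x h3 Aq (Or.inr H.base.wq) Axj Ax (Or.inr hx) (by omega)
        (by omega) (by omega)
  have pat' : ∀ t, 0 ≤ t → t < x - md b x + 2 * b → (A t ↔ md b t < b) := by
    intro t h1 h2
    by_cases h3 : t < x
    · exact pat t h1 h3
    · by_cases h4 : t = x
      · rw [h4]; exact ⟨fun _ => rlt, fun _ => Ax⟩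
      · -- t > x
        have full : ∀ i, 1 ≤ i → i < b → md b x = 0 → A (x + i) := by
          intro i h1 h2 h3
          rcases lev h3 i h1 h2 with h | h
          · exact h
          · exact absurd h (top i h1 h2)
        by_cases h5 : t < x - md b x + b
        · have hr0 : md b x = 0 := by omega
          have := mda (t - x) (by omega) (by omega)
          rw [show x + (t - x) = t by omega] at this
          have hA := full (t - x) (by omega) (by omega) hr0
          rw [show x + (t - x) = t by omega] at hA
          exact ⟨fun _ => by omega, fun _ => hA⟩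
        · -- in the empty block
          have hAt : A (t - b) := by
            by_cases h6 : t - b < x
            · refine (pat (t - b) (by omega) h6).2 ?_
              have hs := md_sub b1 x (x - (t - b))
              have := md_small (b := b) (x - (t - b)) (by omega) (by omega)
              rw [this, show x - (x - (t - b)) = t - b by omega] at hs
              omega
            · by_cases h7 : t - b = x
              · rwa [h7]
              · have hA := full (t - b - x) (by omega) (by omega) (by omega)
                rwa [show x + (t - b - x) = t - b by omega] at hA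
          have hn : ¬ A t := by
            intro h
            exact G.bad (t - b) (q - b) t q hAt Ab (Or.inr H.base.wb) h Aq (Or.inr H.base.wq)
              (by omega) (by omega) (by omega)
          have hmt : md b t = md b x + (t - x) := by
            have hs := md_sub b1 t (t - x)
            have := md_small (b := b) (t - x) (by omega) (by omega)
            rw [this, show t - (t - x) = x by omega] at hs
            have := md_range b1 t
            omega
          exact ⟨fun h => absurd h hn, fun h => by omega⟩
  exact ⟨H, hx, hp.1, xq, hm', r, top, pat'⟩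

/-- No label `q - h` for `1 ≤ h ≤ x + b` except `q - b`. -/
theorem CB3.nohi (H : CB3 q A W b x) : ∀ h, 1 ≤ h → h ≤ x + b → h ≠ b → ¬ A (q - h) := by
  have G := H.base.base.g
  have b1 := H.base.base.b1
  have Aq := G.sub _ H.base.base.wq
  have Ab := G.sub _ H.base.base.wb
  have Ax := G.sub _ H.hx
  have xb := H.xb
  have xq := H.xq
  have hr := md_range b1 x
  have rr := H.r
  intro h h1 h2 h3 h4
  have hh := md_range b1 h
  have hs := md_sub b1 x h
  -- conflict with a pair (a, x)
  have c1 : 0 ≤ x - h → md b (x - h) < b → False := by
    intro k1 k2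
    have hA := (H.pat (x - h) k1 (by omega)).2 k2
    exact G.bad (q - h) q (x - h) x h4 Aq (Or.inr H.base.base.wq) hA Ax (Or.inr H.hx) (by omega)
      (by omega) (by omega)
  have c2 : b < h → md b (x - (h - b)) < b → False := by
    intro k1 k2
    have hA := (H.pat (x - (h - b)) (by omega) (by omega)).2 k2
    exact G.bad (q - h) (q - b) (x - (h - b)) x h4 Ab (Or.inr H.base.base.wb) hA Ax (Or.inr H.hx)
      (by omega) (by omega) (by omega)
  have c3 : md b x = 0 → h < b → False := by
    intro k1 k2
    have hs' := md_sub b1 (x + h) h
    rw [md_small h (by omega) (by omega), show x + h - h = x by omega] at hs'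
    have hx' := md_range b1 (x + h)
    have hA := (H.pat (x + h) (by omega) (by omega)).2 (by omega)
    exact G.bad (q - h) q x (x + h) h4 Aq (Or.inr H.base.base.wq) Ax hA (Or.inl H.hx)
      (by omega) (by omega) (by omega)
  have hsb := md_sub b1 h b
  rw [md_self b1] at hsb
  have hsx := md_sub b1 x (h - b)
  have hbr := md_range b1 (h - b)
  -- when h > x
  have hgt : x < h → md b (h - x) = h - x := fun k => md_small _ (by omega) (by omega)
  have hsgt := md_sub b1 h x
  rcases rr with r0 | r0
  · by_cases k1 : md b h = 0 ∨ b < md b h
    · by_cases k2 : x < h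
      · have := hgt k2
        omega
      · exact c1 (by omega) (by omega)
    · by_cases k2 : h < b
      · exact c3 r0 k2
      · exact c2 (by omega) (by omega)
  · by_cases k1 : md b h < b
    · by_cases k2 : x < h
      · have := hgt k2
        omega
      · exact c1 (by omega) (by omega)
    · exact c2 (by
        by_contra hcon
        have : md b h = h := md_small _ (by omega) (by omega)
        omega) (by omega)

end Pool.Agent.Work.MP_7fd98a_co.Split
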