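import Mathlib

/-!
Complete split graphs (all parts but one are single vertices): the arithmetic of the labels.
`A` is the set of labels, `W` the set of labels of the single vertices, `q` the number of edges.
-/

namespace Pool.Agent.Work.MP_7fd98a_co.Split

/-- Labels of a graceful labelling of a complete split graph with `q` edges: every `d ∈ [1,q]` is
the difference of exactly one pair of labels which meets `W`. -/
structure Gr (q : ℤ) (A W : ℤ → Prop) : Prop where
  sub : ∀ x, W x → A x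
  lo : ∀ x, A x → 0 ≤ x
  hi : ∀ x, A x → x ≤ q
  cov : ∀ d, 1 ≤ d → d ≤ q → ∃ u v, A u ∧ A v ∧ v = u + d ∧ (W u ∨ W v)
  uni : ∀ u v u' v', A u → A v → (W u ∨ W v) → A u' → A v' → (W u' ∨ W v') → u < v →
    v - u = v' - u' → u = u'

/-- There are at least four single vertices. -/
def Four (W : ℤ → Prop) : Prop := ∀ a b c : ℤ, ∃ w, W w ∧ w ≠ a ∧ w ≠ b ∧ w ≠ c

/-- Reflection. -/
theorem Gr.refl {q : ℤ} {A W : ℤ → Prop} (G : Gr q A W) :
    Gr q (fun x => A (q - x)) (fun x => W (q - x)) where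
  sub x h := G.sub _ h
  lo x h := by have := G.hi _ h; omega
  hi x h := by have := G.lo _ h; omega
  cov d h1 h2 := by
    obtain ⟨u, v, hu, hv, e, h⟩ := G.cov d h1 h2
    refine ⟨q - v, q - u, ?_, ?_, by omega, ?_⟩
    · simpa using hv
    · simpa using hu
    · rcases h with h | h
      · right; simpa using h
      · left; simpa using h
  uni u v u' v' h1 h2 h3 h4 h5 h6 h7 h8 := by
    have := G.uni (q - v) (q - u) (q - v') (q - u') h2 h1 h3.symm h5 h4 h6.symm (by omega)
      (by omega)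
    omega

theorem Four.refl {q : ℤ} {W : ℤ → Prop} (H : Four W) : Four (fun x => W (q - x)) := by
  intro a b c
  obtain ⟨w, h, h1, h2, h3⟩ := H (q - a) (q - b) (q - c)
  exact ⟨q - w, by simpa using h, by omega, by omega, by omega⟩

/-- Case I: both ends are singles, and so is `q - c`, with `c` minimal. -/
structure CI (q : ℤ) (A W : ℤ → Prop) (c : ℤ) : Prop where
  g : Gr q A W
  four : Four W
  c1 : 1 ≤ c
  w0 : W 0
  wq : W q
  wc : W (q - c)
  wm : ∀ w, W w → w ≠ 0 → w ≠ q → c ≤ w ∧ w ≤ q - c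

structure CI' (q : ℤ) (A W : ℤ → Prop) (c : ℤ) : Prop where
  base : CI q A W c
  blk : ∀ t, 0 ≤ t → t < c → A t
  top : ∀ t, 1 ≤ t → t < c → ¬ A (q - t)
  gap : ∀ t, c ≤ t → t < 2 * c → ¬ A t
  gap' : ∀ t, c < t → t ≤ 2 * c → ¬ A (q - t)
  big : 4 * c < q
  two : A (2 * c)

/-- `G.bad`: two different good pairs with the same difference. -/
theorem Gr.bad {q : ℤ} {A W : ℤ → Prop} (G : Gr q A W) (u v u' v' : ℤ) (h1 : A u) (h2 : A v)
    (h3 : W u ∨ W v) (h4 : A u') (h5 : A v') (h6 : W u' ∨ W v') (h7 : u < v)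
    (h8 : v - u = v' - u') (h9 : u ≠ u') : False :=
  h9 (G.uni u v u' v' h1 h2 h3 h4 h5 h6 h7 h8)

end Pool.Agent.Work.MP_7fd98a_co.Split
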