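import Pool.Agent.Work.MP_7fd98a_co.Split.Asm

namespace Pool.Agent.Work.MP_7fd98a_co.Split

/-- A graph with `q` edges is graceful if there is an injective `f : V → {0,…,q}` such that
different edges `uv` get different values `|f u - f v|`. -/
def Graceful {V : Type} (G : SimpleGraph V) : Prop :=
  ∃ f : V → ℕ, Function.Injective f ∧ (∀ v, f v ≤ Nat.card G.edgeSet) ∧
    ∀ u v u' v' : V, G.Adj u v → G.Adj u' v' →
      |(f u : ℤ) - f v| = |(f u' : ℤ) - f v'| → s(u, v) = s(u', v')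

/-- The value of an edge. -/
def ev {V : Type} (f : V → ℕ) : Sym2 V → ℕ :=
  Sym2.lift ⟨fun u v => ((f u : ℤ) - f v).natAbs, fun u v => by
    show ((f u : ℤ) - f v).natAbs = ((f v : ℤ) - f u).natAbs
    rw [← Int.natAbs_neg, neg_sub]⟩

theorem ev_mk {V : Type} (f : V → ℕ) (u v : V) : ev f s(u, v) = ((f u : ℤ) - f v).natAbs := rfl

theorem abs_ev {V : Type} (f : V → ℕ) (u v : V) : |(f u : ℤ) - f v| = (ev f s(u, v) : ℤ) := by
  rw [ev_mk, Int.abs_eq_natAbs]

/-- Every value is attained. -/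
theorem attained {V : Type} [Fintype V] (G : SimpleGraph V) (f : V → ℕ)
    (hf : Function.Injective f) (hle : ∀ v, f v ≤ Nat.card G.edgeSet)
    (hu : ∀ u v u' v' : V, G.Adj u v → G.Adj u' v' →
      |(f u : ℤ) - f v| = |(f u' : ℤ) - f v'| → s(u, v) = s(u', v'))
    (d : ℕ) (h1 : 1 ≤ d) (h2 : d ≤ Nat.card G.edgeSet) :
    ∃ u v, G.Adj u v ∧ (f v : ℤ) = f u + d := by
  classical
  have : Fintype G.edgeSet := Fintype.ofFinite _
  have hcard : Nat.card G.edgeSet = Fintype.card G.edgeSet := Nat.card_eq_fintype_card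
  have hmaps : ∀ e : G.edgeSet, ev f e.1 ∈ Finset.Icc 1 (Nat.card G.edgeSet) := by
    rintro ⟨e, he⟩
    induction e using Sym2.ind with
    | _ u v =>
      rw [SimpleGraph.mem_edgeSet] at he
      have hne : f u ≠ f v := fun h => he.ne (hf h)
      have := hle u
      have := hle v
      simp only [ev_mk, Finset.mem_Icc]
      omega
  have hinj : Function.Injective (fun e : G.edgeSet => ev f e.1) := by
    rintro ⟨e, he⟩ ⟨e', he'⟩ h
    induction e using Sym2.ind with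
    | _ u v =>
      induction e' using Sym2.ind with
      | _ u' v' =>
        rw [SimpleGraph.mem_edgeSet] at he he'
        apply Subtype.ext
        refine hu u v u' v' he he' ?_
        rw [abs_ev, abs_ev]
        exact_mod_cast h
  have himg : Finset.image (fun e : G.edgeSet => ev f e.1) Finset.univ
      = Finset.Icc 1 (Nat.card G.edgeSet) := by
    apply Finset.eq_of_subset_of_card_le
    · intro x hx
      rw [Finset.mem_image] at hx
      obtain ⟨e, -, rfl⟩ := hx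
      exact hmaps e
    · rw [Finset.card_image_of_injective _ hinj, Finset.card_univ, Nat.card_Icc, hcard]
      omega
  have hd : d ∈ Finset.image (fun e : G.edgeSet => ev f e.1) Finset.univ := by
    rw [himg, Finset.mem_Icc]; exact ⟨h1, h2⟩
  rw [Finset.mem_image] at hd
  obtain ⟨⟨e, he⟩, -, h⟩ := hd
  induction e using Sym2.ind with
  | _ u v =>
    rw [SimpleGraph.mem_edgeSet] at he
    simp only [ev_mk] at h
    by_cases hc : f u ≤ f v
    · exact ⟨u, v, he, by omega⟩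
    · exact ⟨v, u, he.symm, by omega⟩

theorem graceful_of {V : Type} [Fintype V] (G : SimpleGraph V) (f : V → ℕ) (Q : ℕ)
    (hf : Function.Injective f) (hle : ∀ v, f v ≤ Q)
    (hs : ∀ d, 1 ≤ d → d ≤ Q → ∃ u v, G.Adj u v ∧ ev f s(u, v) = d)
    (hu : ∀ u v u' v' : V, G.Adj u v → G.Adj u' v' →
      |(f u : ℤ) - f v| = |(f u' : ℤ) - f v'| → s(u, v) = s(u', v')) : Graceful G := by
  classical
  have : Fintype G.edgeSet := Fintype.ofFinite _
  refine ⟨f, hf, fun v => (hle v).trans ?_, hu⟩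
  rw [Nat.card_eq_fintype_card]
  have : Finset.Icc 1 Q ⊆ Finset.image (fun e : G.edgeSet => ev f e.1) Finset.univ := by
    intro d hd
    rw [Finset.mem_Icc] at hd
    obtain ⟨u, v, h, e⟩ := hs d hd.1 hd.2
    rw [Finset.mem_image]
    exact ⟨⟨s(u, v), h⟩, Finset.mem_univ _, e⟩
  have h2 := Finset.card_le_card this
  have h3 := Finset.card_image_le (s := (Finset.univ : Finset G.edgeSet))
    (f := fun e : G.edgeSet => ev f e.1)
  rw [Nat.card_Icc] at h2
  rw [Finset.card_univ] at h3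
  omega

abbrev KM {k : ℕ} (n : Fin k → ℕ) : SimpleGraph (Σ i, Fin (n i)) :=
  SimpleGraph.completeMultipartiteGraph (fun i : Fin k => Fin (n i))

theorem adj_iff {k : ℕ} (n : Fin k → ℕ) (u v : Σ i, Fin (n i)) :
    (KM n).Adj u v ↔ u.1 ≠ v.1 := by
  simp [SimpleGraph.completeMultipartiteGraph]

/-- The negative part. -/
theorem negative (k : ℕ) (hk : 5 ≤ k) (n : Fin k → ℕ) (hn : ∀ i, 1 ≤ n i) (i₀ : Fin k)
    (h1 : ∀ i, i ≠ i₀ → n i = 1) : ¬ Graceful (KM n) := by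
  classical
  rintro ⟨f, hf, hle, hu⟩
  have hsing : ∀ a b : (Σ i, Fin (n i)), a.1 = b.1 → a.1 ≠ i₀ → a = b := by
    rintro ⟨i, a⟩ ⟨j, b⟩ h h'
    dsimp at h h'
    subst h
    have : Subsingleton (Fin (n i)) := by rw [h1 i h']; infer_instance
    rw [Subsingleton.elim a b]
  let A : ℤ → Prop := fun x => ∃ v, (f v : ℤ) = x
  let W : ℤ → Prop := fun x => ∃ v : (Σ i, Fin (n i)), v.1 ≠ i₀ ∧ (f v : ℤ) = x
  have hfi : ∀ a b, (f a : ℤ) = f b → a = b := fun a b h => hf (by exact_mod_cast h)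
  have G : Gr (Nat.card (KM n).edgeSet) A W := by
    refine ⟨?_, ?_, ?_, ?_, ?_⟩
    · rintro x ⟨v, -, h⟩; exact ⟨v, h⟩
    · rintro x ⟨v, rfl⟩; positivity
    · rintro x ⟨v, rfl⟩; exact_mod_cast hle v
    · intro d hd1 hd2
      obtain ⟨u, v, h, e⟩ := attained (KM n) f hf hle hu d.toNat (by omega) (by omega)
      rw [adj_iff] at h
      refine ⟨f u, f v, ⟨u, rfl⟩, ⟨v, rfl⟩, by rw [e]; omega, ?_⟩
      by_cases hui : u.1 = i₀
      · right; exact ⟨v, fun h' => h (hui.trans h'.symm), rfl⟩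
      · left; exact ⟨u, hui, rfl⟩
    · rintro _ _ _ _ ⟨a, rfl⟩ ⟨b, rfl⟩ hw ⟨a', rfl⟩ ⟨b', rfl⟩ hw' hlt he
      have adj : ∀ a b : (Σ i, Fin (n i)), (W (f a) ∨ W (f b)) → (f a : ℤ) ≠ f b →
          (KM n).Adj a b := by
        intro a b hw hne
        rw [adj_iff]
        intro hab
        apply hne
        rcases hw with ⟨c, hc, e⟩ | ⟨c, hc, e⟩
        · have := hfi _ _ e
          subst this
          rw [hsing _ _ hab hc]
        · have := hfi _ _ e
          subst this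
          rw [hsing _ _ hab.symm hc]
      have hs := hu a b a' b' (adj a b hw (by omega)) (adj a' b' hw' (by omega)) (by
        rw [abs_sub_comm, abs_sub_comm (f a' : ℤ), he])
      rw [Sym2.eq_iff] at hs
      rcases hs with ⟨rfl, rfl⟩ | ⟨rfl, rfl⟩
      · rfl
      · omega
  have hF : Four W := by
    intro a b c
    let g : Fin k → ℤ := fun i => f ⟨i, ⟨0, hn i⟩⟩
    have hg : Function.Injective g := by
      intro i j h
      have := hfi _ _ h
      exact congrArg Sigma.fst this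
    have hc : ({a, b, c} : Finset ℤ).card ≤ 3 := Finset.card_le_three
    have hc2 : (Finset.image g (Finset.univ.erase i₀)).card = k - 1 := by
      rw [Finset.card_image_of_injective _ hg, Finset.card_erase_of_mem (Finset.mem_univ _),
        Finset.card_univ, Fintype.card_fin]
    obtain ⟨w, hw, hw'⟩ := Finset.exists_mem_notMem_of_card_lt_card
      (s := ({a, b, c} : Finset ℤ)) (t := Finset.image g (Finset.univ.erase i₀)) (by omega)
    rw [Finset.mem_image] at hw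
    obtain ⟨i, hi, rfl⟩ := hw
    simp only [Finset.mem_insert, Finset.mem_singleton, not_or] at hw'
    exact ⟨g i, ⟨⟨i, ⟨0, hn i⟩⟩, Finset.ne_of_mem_erase hi, rfl⟩, hw'.1, hw'.2.1, hw'.2.2⟩
  have hq : 1 ≤ (Nat.card (KM n).edgeSet : ℤ) := by
    obtain ⟨j, hj⟩ : ∃ j : Fin k, j ≠ i₀ := by
      by_cases h : i₀ = ⟨0, by omega⟩
      · exact ⟨⟨1, by omega⟩, by rw [h]; simp⟩
      · exact ⟨⟨0, by omega⟩, fun h' => h h'.symm⟩
    have : Nonempty (KM n).edgeSet :=
      ⟨⟨s(⟨i₀, ⟨0, hn i₀⟩⟩, ⟨j, ⟨0, hn j⟩⟩), by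
        rw [SimpleGraph.mem_edgeSet, adj_iff]; exact fun h => hj h.symm⟩⟩
    have := Nat.card_pos (α := (KM n).edgeSet)
    exact_mod_cast this
  refine G.main hF hq (f ⟨i₀, ⟨0, hn i₀⟩⟩) ⟨_, rfl⟩ ?_
  rintro ⟨v, hv, e⟩
  have := hfi _ _ e
  rw [this] at hv
  exact hv rfl

/-- The positive part, from a list of labels of the singles. -/
theorem positive_of (k : ℕ) (n : Fin k → ℕ) (i₀ : Fin k)
    (h1 : ∀ i, i ≠ i₀ → n i = 1) (s : ℕ) (hs : k = s + 1) (L : Fin s → ℕ) (Q : ℕ)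
    (La : Function.Injective L) (Lb : ∀ t, L t = 0 ∨ n i₀ < L t) (Lc : ∀ t, L t ≤ Q)
    (Ld : n i₀ ≤ Q)
    (Le : ∀ d, 1 ≤ d → d ≤ Q →
      (∃ t, ∃ j : ℕ, 1 ≤ j ∧ j ≤ n i₀ ∧ ((L t : ℤ) - j).natAbs = d) ∨
      (∃ t t', t ≠ t' ∧ ((L t : ℤ) - L t').natAbs = d))
    (Lf : ∀ t t', ∀ j j' : ℕ, 1 ≤ j → j ≤ n i₀ → 1 ≤ j' → j' ≤ n i₀ →
      ((L t : ℤ) - j).natAbs = ((L t' : ℤ) - j').natAbs → t = t' ∧ j = j')
    (Lg : ∀ t t' t'', ∀ j : ℕ, 1 ≤ j → j ≤ n i₀ → t' ≠ t'' →
      ((L t : ℤ) - j).natAbs ≠ ((L t' : ℤ) - L t'').natAbs)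
    (Lh : ∀ t1 t2 t3 t4, t1 ≠ t2 → t3 ≠ t4 →
      ((L t1 : ℤ) - L t2).natAbs = ((L t3 : ℤ) - L t4).natAbs →
        (t1 = t3 ∧ t2 = t4) ∨ (t1 = t4 ∧ t2 = t3)) :
    Graceful (KM n) := by
  classical
  have hcard : Fintype.card {i // i ≠ i₀} = s := by
    rw [Fintype.card_subtype_compl, Fintype.card_fin, Fintype.card_unique]; omega
  let e : {i // i ≠ i₀} ≃ Fin s := Fintype.equivFinOfCardEq hcard
  let f : (Σ i, Fin (n i)) → ℕ := fun v => if h : v.1 = i₀ then v.2.1 + 1 else L (e ⟨v.1, h⟩)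
  have f0 : ∀ v : (Σ i, Fin (n i)), v.1 = i₀ → f v = v.2.1 + 1 := by
    intro v h; simp only [f, h, dite_true]
  have f1 : ∀ v : (Σ i, Fin (n i)), ∀ h : v.1 ≠ i₀, f v = L (e ⟨v.1, h⟩) := by
    intro v h; simp only [f, h, dite_false]
  have f0' : ∀ v : (Σ i, Fin (n i)), v.1 = i₀ → 1 ≤ f v ∧ f v ≤ n i₀ := by
    intro v h
    rw [f0 v h]
    have h2 := v.2.2
    have h3 : n v.1 = n i₀ := by rw [h]
    omega
  have hsing : ∀ a b : (Σ i, Fin (n i)), a.1 = b.1 → a.1 ≠ i₀ → a = b := by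
    rintro ⟨i, a⟩ ⟨j, b⟩ h h'
    dsimp at h h'
    subst h
    have : Subsingleton (Fin (n i)) := by rw [h1 i h']; infer_instance
    rw [Subsingleton.elim a b]
  have h00 : ∀ a b : (Σ i, Fin (n i)), a.1 = i₀ → b.1 = i₀ → f a = f b → a = b := by
    rintro ⟨i, a⟩ ⟨j, b⟩ ha hb h
    rw [f0 _ ha, f0 _ hb] at h
    dsimp at ha hb h
    subst ha
    subst hb
    congr 1
    exact Fin.ext (by omega)
  have h11 : ∀ a b : (Σ i, Fin (n i)), ∀ ha : a.1 ≠ i₀, ∀ hb : b.1 ≠ i₀,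
      e ⟨a.1, ha⟩ = e ⟨b.1, hb⟩ → a = b := by
    intro a b ha hb h
    have := e.injective h
    exact hsing a b (congrArg Subtype.val this) ha
  have hinj : Function.Injective f := by
    intro a b h
    by_cases ha : a.1 = i₀
    · by_cases hb : b.1 = i₀
      · exact h00 a b ha hb h
      · have := f0' a ha
        rw [f1 b hb] at h
        have := Lb (e ⟨b.1, hb⟩)
        omega
    · by_cases hb : b.1 = i₀
      · have := f0' b hb
        rw [f1 a ha] at h
        have := Lb (e ⟨a.1, ha⟩)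
        omega
      · rw [f1 a ha, f1 b hb] at h
        exact h11 a b ha hb (La h)
  refine graceful_of (KM n) f Q hinj ?_ ?_ ?_
  · intro v
    by_cases h : v.1 = i₀
    · exact (f0' v h).2.trans Ld
    · rw [f1 v h]; exact Lc _
  · intro d hd1 hd2
    rcases Le d hd1 hd2 with ⟨t, j, j1, j2, h⟩ | ⟨t, t', hne, h⟩
    · obtain ⟨⟨i, hi⟩, rfl⟩ := e.surjective t
      have hpos : 0 < n i := by rw [h1 i hi]; omega
      refine ⟨⟨i, ⟨0, hpos⟩⟩, ⟨i₀, ⟨j - 1, by omega⟩⟩, ?_, ?_⟩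
      · rw [adj_iff]; exact hi
      · rw [ev_mk, f1 ⟨i, ⟨0, hpos⟩⟩ hi, f0 ⟨i₀, ⟨j - 1, by omega⟩⟩ rfl, ← h]
        dsimp
        congr 1
        omega
    · obtain ⟨⟨i, hi⟩, rfl⟩ := e.surjective t
      obtain ⟨⟨i', hi'⟩, rfl⟩ := e.surjective t'
      have hpos : 0 < n i := by rw [h1 i hi]; omega
      have hpos' : 0 < n i' := by rw [h1 i' hi']; omega
      refine ⟨⟨i, ⟨0, hpos⟩⟩, ⟨i', ⟨0, hpos'⟩⟩, ?_, ?_⟩
      · rw [adj_iff]
        intro h
        dsimp at h
        subst h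
        exact hne rfl
      · rw [ev_mk, f1 ⟨i, ⟨0, hpos⟩⟩ hi, f1 ⟨i', ⟨0, hpos'⟩⟩ hi', ← h]
  · -- uniqueness
    have key : ∀ u v u' v' : (Σ i, Fin (n i)), u.1 ≠ i₀ → u'.1 ≠ i₀ → u.1 ≠ v.1 → u'.1 ≠ v'.1 →
        ev f s(u, v) = ev f s(u', v') → s(u, v) = s(u', v') := by
      intro u v u' v' hu hu' huv huv' h
      rw [ev_mk, ev_mk, f1 u hu, f1 u' hu'] at h
      by_cases hv : v.1 = i₀
      · have a1 := f0' v hv
        by_cases hv' : v'.1 = i₀
        · have a2 := f0' v' hv'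
          have := Lf _ _ _ _ a1.1 a1.2 a2.1 a2.2 h
          rw [h11 u u' hu hu' this.1, h00 v v' hv hv' this.2]
        · rw [f1 v' hv'] at h
          exfalso
          refine Lg _ _ _ _ a1.1 a1.2 ?_ h
          intro h'
          exact huv' (by rw [h11 u' v' hu' hv' h'])
      · rw [f1 v hv] at h
        by_cases hv' : v'.1 = i₀
        · have a2 := f0' v' hv'
          exfalso
          refine Lg _ _ _ _ a2.1 a2.2 ?_ h.symm
          intro h'
          exact huv (by rw [h11 u v hu hv h'])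
        · rw [f1 v' hv'] at h
          have := Lh _ _ _ _ (fun h' => huv (by rw [h11 u v hu hv h']))
            (fun h' => huv' (by rw [h11 u' v' hu' hv' h'])) h
          rcases this with ⟨a, b⟩ | ⟨a, b⟩
          · rw [h11 _ _ _ _ a, h11 _ _ _ _ b]
          · rw [h11 _ _ _ _ a, h11 _ _ _ _ b, Sym2.eq_swap]
    intro u v u' v' huv huv' h
    rw [adj_iff] at huv huv'
    rw [abs_ev, abs_ev] at h
    have h' : ev f s(u, v) = ev f s(u', v') := by exact_mod_cast h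
    by_cases hu : u.1 = i₀
    · have hv : v.1 ≠ i₀ := fun h => huv (hu.trans h.symm)
      by_cases hu' : u'.1 = i₀
      · have hv' : v'.1 ≠ i₀ := fun h => huv' (hu'.trans h.symm)
        have := key v u v' u' hv hv' huv.symm huv'.symm (by
          rw [Sym2.eq_swap, h', Sym2.eq_swap])
        rw [Sym2.eq_swap, this, Sym2.eq_swap]
      · have := key v u u' v' hv hu' huv.symm huv' (by rw [Sym2.eq_swap, h'])
        rw [Sym2.eq_swap, this]
    · by_cases hu' : u'.1 = i₀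
      · have hv' : v'.1 ≠ i₀ := fun h => huv' (hu'.trans h.symm)
        have := key u v v' u' hu hv' huv huv'.symm (by rw [h', Sym2.eq_swap])
        rw [this, Sym2.eq_swap]
      · exact key u v u' v' hu hu' huv huv' h'

end Pool.Agent.Work.MP_7fd98a_co.Split
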