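import Pool.Agent.Work.MP_7fd98a_co.Split.Graph

namespace Pool.Agent.Work.MP_7fd98a_co.Split

theorem positive2 (n : Fin 2 → ℕ) (hn : ∀ i, 1 ≤ n i) (i₀ : Fin 2)
    (h1 : ∀ i, i ≠ i₀ → n i = 1) : Graceful (KM n) := by
  have hm := hn i₀
  refine positive_of 2 n i₀ h1 1 rfl (fun _ => 0) (n i₀) ?_ ?_ ?_ ?_ ?_ ?_ ?_ ?_
  · intro a b _; exact Subsingleton.elim a b
  · intro t; left; rfl
  · intro t; omega
  · exact le_refl _
  · intro d h1 h2
    left
    exact ⟨0, d, h1, h2, by push_cast; omega⟩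
  · intro t t' j j' _ _ _ _ h
    exact ⟨Subsingleton.elim _ _, by push_cast at h; omega⟩
  · intro t t' t'' j _ _ h
    exact absurd (Subsingleton.elim _ _) h
  · intro t1 t2 t3 t4 h
    exact absurd (Subsingleton.elim _ _) h

theorem positive3 (n : Fin 3 → ℕ) (hn : ∀ i, 1 ≤ n i) (i₀ : Fin 3)
    (h1 : ∀ i, i ≠ i₀ → n i = 1) : Graceful (KM n) := by
  have hm := hn i₀
  obtain ⟨m, hm'⟩ : ∃ m, m = n i₀ := ⟨_, rfl⟩
  rw [← hm'] at hm
  have fin2 : ∀ t : Fin 2, t = 0 ∨ t = 1 := by decide
  refine positive_of 3 n i₀ h1 2 rfl ![0, 2 * n i₀ + 1] (2 * n i₀ + 1) ?_ ?_ ?_ ?_ ?_ ?_ ?_ ?_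
  all_goals rw [← hm'] 
  · intro a b h
    rcases fin2 a with rfl | rfl <;> rcases fin2 b with rfl | rfl <;> simp at h ⊢
  · intro t
    rcases fin2 t with rfl | rfl <;> simp
    omega
  · intro t
    rcases fin2 t with rfl | rfl <;> simp
  · omega
  · intro d h1 h2
    by_cases hd : d ≤ m
    · left
      exact ⟨0, d, h1, hd, by simp⟩
    · by_cases hd' : d = 2 * m + 1
      · right
        refine ⟨0, 1, by decide, ?_⟩
        simp
        omega
      · left
        refine ⟨1, 2 * m + 1 - d, by omega, by omega, ?_⟩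
        simp
        omega
  · intro t t' j j' a1 a2 a3 a4 h
    rcases fin2 t with rfl | rfl <;> rcases fin2 t' with rfl | rfl <;> simp at h ⊢ <;> omega
  · intro t t' t'' j a1 a2 hne h
    rcases fin2 t with rfl | rfl <;> rcases fin2 t' with rfl | rfl <;>
      rcases fin2 t'' with rfl | rfl <;> simp at h hne <;> omega
  · intro t1 t2 t3 t4 h12 h34 h
    rcases fin2 t1 with rfl | rfl <;> rcases fin2 t2 with rfl | rfl <;>
      rcases fin2 t3 with rfl | rfl <;> rcases fin2 t4 with rfl | rfl <;>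
      simp at h12 h34 ⊢

theorem positive4 (n : Fin 4 → ℕ) (hn : ∀ i, 1 ≤ n i) (i₀ : Fin 4)
    (h1 : ∀ i, i ≠ i₀ → n i = 1) : Graceful (KM n) := by
  have hm := hn i₀
  obtain ⟨m, hm'⟩ : ∃ m, m = n i₀ := ⟨_, rfl⟩
  rw [← hm'] at hm
  have fin3 : ∀ t : Fin 3, t = 0 ∨ t = 1 ∨ t = 2 := by decide
  refine positive_of 4 n i₀ h1 3 rfl ![0, 2 * (n i₀ + 1), 3 * (n i₀ + 1)] (3 * (n i₀ + 1))
    ?_ ?_ ?_ ?_ ?_ ?_ ?_ ?_
  all_goals rw [← hm']
  · intro a b h
    rcases fin3 a with rfl | rfl | rfl <;> rcases fin3 b with rfl | rfl | rfl <;>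
      simp at h ⊢ <;> omega
  · intro t
    rcases fin3 t with rfl | rfl | rfl <;> simp <;> omega
  · intro t
    rcases fin3 t with rfl | rfl | rfl <;> simp <;> omega
  · omega
  · intro d h1 h2
    by_cases hd : d ≤ m
    · left
      exact ⟨0, d, h1, hd, by simp⟩
    · by_cases hd1 : d = m + 1
      · right
        refine ⟨1, 2, by decide, ?_⟩
        simp
        omega
      · by_cases hd2 : d < 2 * (m + 1)
        · left
          refine ⟨1, 2 * (m + 1) - d, by omega, by omega, ?_⟩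
          simp
          omega
        · by_cases hd3 : d = 2 * (m + 1)
          · right
            refine ⟨0, 1, by decide, ?_⟩
            simp
            omega
          · by_cases hd4 : d = 3 * (m + 1)
            · right
              refine ⟨0, 2, by decide, ?_⟩
              simp
              omega
            · left
              refine ⟨2, 3 * (m + 1) - d, by omega, by omega, ?_⟩
              simp
              omega
  · intro t t' j j' a1 a2 a3 a4 h
    rcases fin3 t with rfl | rfl | rfl <;> rcases fin3 t' with rfl | rfl | rfl <;>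
      simp at h ⊢ <;> omega
  · intro t t' t'' j a1 a2 hne h
    rcases fin3 t with rfl | rfl | rfl <;> rcases fin3 t' with rfl | rfl | rfl <;>
      rcases fin3 t'' with rfl | rfl | rfl <;> simp at h hne <;> omega
  · intro t1 t2 t3 t4 h12 h34 h
    rcases fin3 t1 with rfl | rfl | rfl <;> rcases fin3 t2 with rfl | rfl | rfl <;>
      rcases fin3 t3 with rfl | rfl | rfl <;> rcases fin3 t4 with rfl | rfl | rfl <;>
      simp at h12 h34 h ⊢ <;> omega

/-- `K_{1,…,1,n}` with `k ≥ 2` parts, all but at most one of size one, is graceful iff `k ≤ 4`. -/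
theorem main (k : ℕ) (hk : 2 ≤ k) (n : Fin k → ℕ) (hn : ∀ i, 1 ≤ n i) (i₀ : Fin k)
    (h1 : ∀ i, i ≠ i₀ → n i = 1) :
    Graceful (SimpleGraph.completeMultipartiteGraph (fun i : Fin k => Fin (n i))) ↔ k ≤ 4 := by
  constructor
  · intro h
    by_contra hcon
    exact negative k (by omega) n hn i₀ h1 h
  · intro h
    have : k = 2 ∨ k = 3 ∨ k = 4 := by omega
    rcases this with rfl | rfl | rfl
    · exact positive2 n hn i₀ h1
    · exact positive3 n hn i₀ h1
    · exact positive4 n hn i₀ h1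

end Pool.Agent.Work.MP_7fd98a_co.Split
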